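import Pool.Agent.Q39.MD17.Stmts

/-! S7: approximation of measurable sets by cylinder sets (helper30 for helper39) -/

namespace Pool.Agent.Q39.MD17

open MeasureTheory Set

theorem taskApprox : TaskApprox := by
  intro E _ ν _ A ε hA hε
  have hC : IsSetRing (measurableCylinders (fun _ : V 17 => E)) := isSetRing_measurableCylinders
  have hD : ∃ D : Set (Set (Om 17 E)), D.Countable ∧ D ⊆ measurableCylinders (fun _ : V 17 => E) ∧
      (PP 17 ν) (⋃₀ D)ᶜ = 0 :=
    ⟨{univ}, countable_singleton _, by
      rw [singleton_subset_iff]; exact univ_mem_measurableCylinders _, by simp⟩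
  obtain ⟨t, ht, hlt⟩ := exists_measure_symmDiff_lt_of_generateFrom_isSetRing (μ := PP 17 ν) hC hD
    generateFrom_measurableCylinders.symm hA (ε := ENNReal.ofReal ε) (by simpa using hε)
  rw [mem_measurableCylinders] at ht
  obtain ⟨B, S, hS, rfl⟩ := ht
  refine ⟨cylinder B S, B, MeasurableSet.cylinder B hS, ?_, ?_⟩
  · intro ω ω' h
    have : B.restrict ω = B.restrict ω' := by
      funext x
      exact h x.1 x.2
    simp only [mem_cylinder, this]
  · rw [symmDiff_comm, Measure.real]
    rw [← ENNReal.ofReal_lt_ofReal_iff hε, ENNReal.ofReal_toReal (measure_ne_top _ _)]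
    exact hlt

end Pool.Agent.Q39.MD17
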