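import Pool.Agent.Q39.MD17.Stmts

/-! Proof of `TaskCluster` (MP_a7d87e_pr), helper240. The tree is explored from the root: outside the
ball of radius `len x` a vertex is reached only through its prefixes, which are distinct vertices. -/

namespace Pool.Agent.Q39.MD17

open MeasureTheory ProbabilityTheory Filter Topology Finset
open scoped BigOperators ENNReal NNReal

/-- the labels that ring in block `k` -/
def clusterRg (k : ℕ) : Set Lab := {e | 1 ≤ (e.2 k).1}

theorem cluster_meas (k : ℕ) : MeasurableSet (clusterRg k) := by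
  have h : Measurable (fun e : Lab => (e.2 k).1) := by fun_prop
  exact h (MeasurableSet.of_discrete : MeasurableSet (Set.Ici 1))

theorem cluster_poisson : poissonMeasure (1 / 32) (Set.Ici 1) ≤ ENNReal.ofReal (1 / 32) := by
  have h0 : (Set.Ici 1 : Set ℕ) = {0}ᶜ := by
    ext n
    simp [Nat.one_le_iff_ne_zero]
  have h1 : (poissonMeasure (1 / 32)).real {0}ᶜ ≤ 1 / 32 := by
    rw [probReal_compl_eq_one_sub (MeasurableSet.of_discrete), poissonMeasure_real_singleton]
    have h2 := Real.add_one_le_exp (-(1 / 32 : ℝ))
    simp only [pow_zero, mul_one, Nat.factorial_zero, Nat.cast_one, div_one]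
    have h3 : (((1 / 32 : ℝ≥0) : ℝ)) = 1 / 32 := by norm_num
    rw [h3]
    linarith
  rw [h0, ← ENNReal.ofReal_toReal (measure_ne_top (poissonMeasure (1 / 32)) {0}ᶜ)]
  exact ENNReal.ofReal_le_ofReal h1

theorem cluster_law (k : ℕ) : law (clusterRg k) ≤ ENNReal.ofReal (1 / 32) := by
  have h1 : MeasurePreserving (fun e : Lab => (e.2 k).1) law (poissonMeasure (1 / 32)) := by
    unfold law
    exact measurePreserving_fst.comp
      ((measurePreserving_eval_infinitePi _ k).comp measurePreserving_snd)
  have h2 := h1.measure_preimage (s := Set.Ici 1)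
    (MeasurableSet.of_discrete : MeasurableSet (Set.Ici 1)).nullMeasurableSet
  have h3 : clusterRg k = (fun e : Lab => (e.2 k).1) ⁻¹' Set.Ici 1 := rfl
  rw [h3, h2]
  exact cluster_poisson

/-- the prefix of length `j` -/
def clusterPre (y : V 17) (j : ℕ) : V 17 := ⟨y.1.take j, y.2.take j⟩

/-- the bad event -/
def clusterBad (k r n : ℕ) : Set (Om 17 Lab) :=
  {ω | ∃ y : V 17, y.1.length = n ∧ ∀ j, r ≤ j → j < n → 1 ≤ ((ω (clusterPre y j)).2 k).1}

theorem cluster_one (k r : ℕ) (y : V 17) :
    PP 17 law {ω | ∀ j, r ≤ j → j < y.1.length → 1 ≤ ((ω (clusterPre y j)).2 k).1} ≤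
      ENNReal.ofReal (1 / 32) ^ (y.1.length - r) := by
  set F : Finset (V 17) := (Finset.Ico r y.1.length).image (clusterPre y) with hF
  have hsub : {ω : Om 17 Lab | ∀ j, r ≤ j → j < y.1.length → 1 ≤ ((ω (clusterPre y j)).2 k).1} ⊆
      Set.pi (F : Set (V 17)) (fun _ => clusterRg k) := by
    intro ω hω v hv
    rw [hF] at hv
    simp only [Finset.coe_image, Set.mem_image, Finset.coe_Ico, Set.mem_Ico] at hv
    obtain ⟨j, ⟨h1, h2⟩, rfl⟩ := hv
    exact hω j h1 h2
  refine (measure_mono hsub).trans ?_
  unfold PP
  rw [Measure.infinitePi_pi (fun _ : V 17 => law) (fun _ _ => cluster_meas k), Finset.prod_const]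
  have hcard : F.card = y.1.length - r := by
    rw [hF, Finset.card_image_of_injOn, Nat.card_Ico]
    intro a ha b hb hab
    simp only [Finset.coe_Ico, Set.mem_Ico] at ha hb
    have h1 : (y.1.take a).length = (y.1.take b).length :=
      congrArg (fun z : V 17 => z.1.length) hab
    rw [List.length_take, List.length_take] at h1
    omega
  rw [hcard]
  exact pow_le_pow_left' (cluster_law k) _

theorem cluster_bad (k r n : ℕ) :
    PP 17 law (clusterBad k r n) ≤ 17 ^ n * ENNReal.ofReal (1 / 32) ^ (n - r) := by
  classical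
  have hsub : clusterBad k r n ⊆ ⋃ f : Fin n → Fin 17,
      {ω | ∃ h : (List.ofFn f).IsChain (· ≠ ·), ∀ j, r ≤ j → j < (List.ofFn f).length →
        1 ≤ ((ω (clusterPre ⟨List.ofFn f, h⟩ j)).2 k).1} := by
    rintro ω ⟨y, hy, h⟩
    obtain ⟨l, hl⟩ := y
    simp only at hy
    subst hy
    rw [Set.mem_iUnion]
    refine ⟨l.get, ?_⟩
    have e : List.ofFn l.get = l := List.ofFn_get l
    simp only [Set.mem_ofPred_eq]
    refine ⟨by rw [e]; exact hl, ?_⟩
    intro j h1 h2
    have h3 := h j h1 (by rw [e] at h2; exact h2)
    have h4 : clusterPre ⟨List.ofFn l.get, by rw [e]; exact hl⟩ j = clusterPre ⟨l, hl⟩ j := by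
      congr 2
    rw [h4]
    exact h3
  refine (measure_mono hsub).trans ?_
  refine (measure_iUnion_fintype_le _ _).trans ?_
  have hone : ∀ f : Fin n → Fin 17, PP 17 law {ω | ∃ h : (List.ofFn f).IsChain (· ≠ ·), ∀ j, r ≤ j →
      j < (List.ofFn f).length → 1 ≤ ((ω (clusterPre ⟨List.ofFn f, h⟩ j)).2 k).1} ≤
      ENNReal.ofReal (1 / 32) ^ (n - r) := by
    intro f
    by_cases h : (List.ofFn f).IsChain (· ≠ ·)
    · have h1 := cluster_one k r ⟨List.ofFn f, h⟩
      have h2 : (List.ofFn f).length = n := List.length_ofFn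
      have h3 : ENNReal.ofReal (1 / 32) ^ ((List.ofFn f).length - r) =
          ENNReal.ofReal (1 / 32) ^ (n - r) := by rw [h2]
      refine le_trans (measure_mono ?_) (h1.trans h3.le)
      rintro ω ⟨_, h4⟩
      exact h4
    · have h1 : {ω : Om 17 Lab | ∃ h : (List.ofFn f).IsChain (· ≠ ·), ∀ j, r ≤ j →
          j < (List.ofFn f).length → 1 ≤ ((ω (clusterPre ⟨List.ofFn f, h⟩ j)).2 k).1} = ∅ := by
        ext ω
        simp only [Set.mem_ofPred_eq, Set.mem_empty_iff_false, iff_false]
        rintro ⟨h2, _⟩
        exact h h2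
      rw [h1, measure_empty]
      exact bot_le
  refine (Finset.sum_le_sum fun f _ => hone f).trans ?_
  rw [Finset.sum_const, Finset.card_univ, Fintype.card_fun, Fintype.card_fin, Fintype.card_fin,
    nsmul_eq_mul]
  push_cast
  exact le_refl _

theorem cluster_null (k r : ℕ) : PP 17 law (⋂ n, clusterBad k r n) = 0 := by
  have h1 : ∀ m : ℕ, PP 17 law (⋂ n, clusterBad k r n) ≤
      17 ^ r * (17 * ENNReal.ofReal (1 / 32)) ^ m := by
    intro m
    refine (measure_mono (Set.iInter_subset _ (r + m))).trans ?_
    refine (cluster_bad k r (r + m)).trans ?_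
    rw [Nat.add_sub_cancel_left, pow_add, mul_pow, mul_assoc]
  have hlt : (17 * ENNReal.ofReal (1 / 32)) < 1 := by
    have h17 : (17 : ℝ≥0∞) = ENNReal.ofReal 17 := by
      rw [ENNReal.ofReal_ofNat]
    rw [h17, ← ENNReal.ofReal_mul (by norm_num)]
    rw [ENNReal.ofReal_lt_one]
    norm_num
  have h2 : Tendsto (fun m : ℕ => (17 : ℝ≥0∞) ^ r * (17 * ENNReal.ofReal (1 / 32)) ^ m) atTop
      (𝓝 (17 ^ r * 0)) := by
    refine ENNReal.Tendsto.const_mul (ENNReal.tendsto_pow_atTop_nhds_zero_of_lt_one hlt) ?_
    right
    exact ENNReal.pow_ne_top (by norm_num)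
  rw [mul_zero] at h2
  exact le_antisymm (ge_of_tendsto' h2 h1) bot_le

theorem cluster_R (i : Fin 17) (y : V 17) :
    (R i y).1 = y.1 ++ [i] ∨ y.1 = (R i y).1 ++ [i] := by
  have h0 : (R i y).1 = (preList i y.1.reverse).reverse := rfl
  rcases hr : y.1.reverse with _ | ⟨c, w⟩
  · left
    rw [h0, hr]
    have : y.1 = [] := by simpa using hr
    rw [this]
    simp [preList]
  · have hy : y.1 = w.reverse ++ [c] := by
      have := congrArg List.reverse hr
      simpa using this
    rw [h0, hr]
    by_cases hc : c = i
    · right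
      have h5 : preList i (c :: w) = w := by
        show (if c = i then w else i :: c :: w) = w
        rw [if_pos hc]
      rw [h5, hy, hc]
    · left
      have h5 : preList i (c :: w) = i :: c :: w := by
        show (if c = i then w else i :: c :: w) = i :: c :: w
        rw [if_neg hc]
      rw [h5, hy]
      simp

theorem taskCluster : TaskCluster := by
  unfold TaskCluster
  rw [ae_all_iff]
  intro k
  have hae : ∀ᵐ ω ∂PP 17 law, ∀ r : ℕ, ω ∉ ⋂ n, clusterBad k r n := by
    rw [ae_all_iff]
    intro r
    exact measure_eq_zero_iff_ae_notMem.1 (cluster_null k r)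
  filter_upwards [hae] with ω hω x
  have h1 := hω x.1.length
  rw [Set.mem_iInter] at h1
  push Not at h1
  obtain ⟨n, hn⟩ := h1
  set r := x.1.length with hr
  set Bs : Set (V 17) :=
    {y : V 17 | ∀ j, r ≤ j → j < y.1.length → 1 ≤ ((ω (clusterPre y j)).2 k).1} with hBs
  have hfin : Bs.Finite := by
    have h2 : {y : V 17 | y.1.length < n}.Finite := by
      have h3 : {l : List (Fin 17) | l.length < n}.Finite := List.finite_length_lt _ _
      exact h3.preimage Subtype.val_injective.injOn
    refine h2.subset ?_
    intro y hy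
    by_contra hlt
    simp only [Set.mem_ofPred_eq, not_lt] at hlt
    apply hn
    refine ⟨clusterPre y n, ?_, ?_⟩
    · show (y.1.take n).length = n
      rw [List.length_take]
      omega
    · intro j h4 h5
      have h6 : clusterPre (clusterPre y n) j = clusterPre y j := by
        apply Subtype.ext
        show (y.1.take n).take j = y.1.take j
        rw [List.take_take, min_eq_left h5.le]
      rw [h6]
      exact hy j h4 (by omega)
  refine ⟨hfin.toFinset, ?_, ?_⟩
  · rw [Set.Finite.mem_toFinset]
    intro j h2 h3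
    omega
  · intro y hy hring i
    rw [Set.Finite.mem_toFinset] at hy ⊢
    intro j h2 h3
    rcases cluster_R i y with h | h
    · rw [h, List.length_append, List.length_singleton] at h3
      by_cases hj : j < y.1.length
      · have h4 : clusterPre (R i y) j = clusterPre y j := by
          apply Subtype.ext
          show (R i y).1.take j = y.1.take j
          rw [h, List.take_append_of_le_length hj.le]
        rw [h4]
        exact hy j h2 hj
      · have hj2 : j = y.1.length := by omega
        have h4 : clusterPre (R i y) j = y := by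
          apply Subtype.ext
          show (R i y).1.take j = y.1
          rw [h, hj2, List.take_left]
        rw [h4]
        exact hring
    · have hlen : y.1.length = (R i y).1.length + 1 := by
        conv_lhs => rw [h]
        rw [List.length_append, List.length_singleton]
      have h4 : clusterPre (R i y) j = clusterPre y j := by
        apply Subtype.ext
        show (R i y).1.take j = y.1.take j
        conv_rhs => rw [h]
        rw [List.take_append_of_le_length h3.le]
      rw [h4]
      exact hy j h2 (by omega)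

end Pool.Agent.Q39.MD17
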