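import Pool.Agent.Q39.MD17.Stmts
set_option autoImplicit false

namespace Pool.Agent.Q39.MD17

open MeasureTheory ProbabilityTheory Filter Topology Finset
open scoped BigOperators

namespace CylPow

/-- the action of a word -/
def aw {d : ℕ} {E : Type} (l : List (Fin d)) (ω : Om d E) : Om d E := fun x => ω (l.foldr L x)

theorem aw_cons {d : ℕ} {E : Type} (i : Fin d) (l : List (Fin d)) (ω : Om d E) :
    aw (i :: l) ω = aw l (act i ω) := rfl

theorem MM_iter {d : ℕ} {E : Type} (f : Om d E → ℝ) (n : ℕ) : ∀ ω : Om d E,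
    MM^[n] f ω = ∑ w : Fin n → Fin d, f (aw (List.ofFn w) ω) := by
  induction n with
  | zero =>
    intro ω
    simp only [Function.iterate_zero, id_eq, List.ofFn_zero, Finset.univ_unique, Finset.sum_singleton]
    rfl
  | succ n ih =>
    intro ω
    rw [Function.iterate_succ', Function.comp_apply]
    unfold MM
    rw [← (Fin.consEquiv (fun _ : Fin (n + 1) => Fin d)).sum_comp, Fintype.sum_prod_type]
    refine Finset.sum_congr rfl fun i _ => ?_
    have h := ih (act i ω)
    unfold MM at h
    rw [h]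
    refine Finset.sum_congr rfl fun w _ => ?_
    rw [← aw_cons]
    congr 2
    simp [Fin.consEquiv, List.ofFn_succ]

theorem foldr_rev (hI : TaskInvol) {d : ℕ} (l : List (Fin d)) (x : V d) :
    l.foldr L (l.reverse.foldr L x) = x := by
  induction l generalizing x with
  | nil => rfl
  | cons i l ih =>
    rw [List.reverse_cons, List.foldr_append, List.foldr_cons]
    simp only [List.foldr_cons, List.foldr_nil]
    rw [ih]
    exact (hI d i x).1

theorem aw_rev (hI : TaskInvol) {d : ℕ} {E : Type} (l : List (Fin d)) (ω : Om d E) :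
    aw l (aw l.reverse ω) = ω := by
  funext x
  show ω (l.reverse.foldr L (l.foldr L x)) = ω x
  have := foldr_rev hI l.reverse x
  rw [List.reverse_reverse] at this
  rw [this]

theorem aw_append {d : ℕ} {E : Type} (l l' : List (Fin d)) (ω : Om d E) :
    aw l' (aw l ω) = aw (l ++ l') ω := by
  funext x
  show ω (l.foldr L (l'.foldr L x)) = ω ((l ++ l').foldr L x)
  rw [List.foldr_append]

theorem aw_mp (hP : TaskPres) {d : ℕ} {E : Type} [MeasurableSpace E] (ν : Measure E)
    [IsProbabilityMeasure ν] (l : List (Fin d)) : MeasurePreserving (aw l) (PP d ν) (PP d ν) := by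
  induction l with
  | nil => exact MeasurePreserving.id _
  | cons i l ih => exact ih.comp (hP d E ν i)

theorem ofFn_rev {n d : ℕ} (w : Fin n → Fin d) :
    List.ofFn (w ∘ Fin.rev) = (List.ofFn w).reverse := by
  apply List.ext_getElem
  · simp
  · intro k h1 h2
    simp only [List.getElem_ofFn, List.getElem_reverse, List.length_ofFn, Function.comp_apply]
    congr 1
    apply Fin.ext
    simp only [Fin.val_rev]
    omega

end CylPow

open CylPow

theorem taskCylPow (hI : TaskInvol) (hW : TaskWalk) (hD : TaskDist) (hP : TaskPres)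
    (hInd : TaskIndep) : TaskCylPow := by
  intro E _ ν _ B f C hf hC hB h0
  -- a bound for the lengths in `B`
  obtain ⟨m, hm⟩ : ∃ m : ℕ, ∀ x ∈ B, len x ≤ m := ⟨B.sup len, fun x hx => Finset.le_sup hx⟩
  refine ⟨C ^ 2 * 4 ^ (m + m), fun n => ?_⟩
  have hne : Nonempty (Om 17 E) := (PP 17 ν).nonempty_of_neZero
  obtain ⟨ω₀⟩ := hne
  have hC0 : 0 ≤ C := (abs_nonneg _).trans (hC ω₀)
  have hint : ∀ l l' : List (Fin 17), Integrable (fun ω => f (aw l ω) * f (aw l' ω)) (PP 17 ν) := by
    intro l l'
    refine Integrable.of_bound ((hf.comp (aw_mp hP ν l).measurable).mul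
      (hf.comp (aw_mp hP ν l').measurable)).aestronglyMeasurable (C * C) (ae_of_all _ fun ω => ?_)
    rw [Real.norm_eq_abs, abs_mul]
    exact mul_le_mul (hC _) (hC _) (abs_nonneg _) hC0
  have hterm : ∀ l l' : List (Fin 17), ∫ ω, f (aw l ω) * f (aw l' ω) ∂PP 17 ν =
      ∫ ω, f ω * f (aw (l.reverse ++ l') ω) ∂PP 17 ν := by
    intro l l'
    have h1 := (aw_mp hP ν l.reverse)
    have h2 : ∫ ω, f (aw l ω) * f (aw l' ω) ∂(Measure.map (aw l.reverse) (PP 17 ν)) =
        ∫ ω, f (aw l (aw l.reverse ω)) * f (aw l' (aw l.reverse ω)) ∂PP 17 ν :=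
      integral_map h1.measurable.aemeasurable (by rw [h1.map_eq]; exact (hint l l').1)
    rw [h1.map_eq] at h2
    rw [h2]
    simp only [aw_rev hI, aw_append]
  have hbound : ∀ l : List (Fin 17), ∫ ω, f ω * f (aw l ω) ∂PP 17 ν ≤ C ^ 2 := by
    intro l
    have : ∫ ω, f ω * f (aw l ω) ∂PP 17 ν ≤ ∫ _ω, C ^ 2 ∂PP 17 ν := by
      refine integral_mono (hint [] l) (integrable_const _) fun ω => ?_
      calc f ω * f (aw l ω) ≤ |f ω * f (aw l ω)| := le_abs_self _
        _ = |f ω| * |f (aw l ω)| := abs_mul _ _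
        _ ≤ C * C := mul_le_mul (hC _) (hC _) (abs_nonneg _) hC0
        _ = C ^ 2 := by ring
    simpa using this
  have hzero : ∀ l : List (Fin 17), m + m < len (l.foldr L (o 17)) →
      ∫ ω, f ω * f (aw l ω) ∂PP 17 ν = 0 := by
    intro l hl
    have hdis : Disjoint B (B.image (fun x => l.foldr L x)) := by
      rw [Finset.disjoint_left]
      intro y hy hy'
      obtain ⟨x, hx, hxy⟩ := Finset.mem_image.1 hy'
      have := hD 17 l x y hxy
      have h1 := hm x hx
      have h2 := hm y hy
      omega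
    have := hInd 17 E ν B (B.image (fun x => l.foldr L x)) f (fun ω => f (aw l ω)) C hdis hf
      (hf.comp (aw_mp hP ν l).measurable) hC (fun ω => hC _) hB (by
        intro ω ω' h
        apply hB
        intro x hx
        exact h _ (Finset.mem_image_of_mem _ hx))
    rw [this, h0, zero_mul]
  -- expand the square
  have hexp : ∫ ω, (MM^[n] f ω) ^ 2 ∂PP 17 ν =
      ∑ w : Fin n → Fin 17, ∑ w' : Fin n → Fin 17,
        ∫ ω, f ω * f (aw ((List.ofFn w).reverse ++ List.ofFn w') ω) ∂PP 17 ν := by
    simp only [← hterm]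
    have e1 : ∀ w : Fin n → Fin 17, ∑ w' : Fin n → Fin 17,
        ∫ ω, f (aw (List.ofFn w) ω) * f (aw (List.ofFn w') ω) ∂PP 17 ν =
        ∫ ω, ∑ w' : Fin n → Fin 17, f (aw (List.ofFn w) ω) * f (aw (List.ofFn w') ω) ∂PP 17 ν :=
      fun w => (integral_finsetSum _ fun w' _ => hint _ _).symm
    simp only [e1]
    rw [← integral_finsetSum _ (fun w _ => integrable_finsetSum _ fun w' _ => hint _ _)]
    congr 1
    funext ω
    rw [MM_iter, sq, Finset.sum_mul_sum]
  set P : Finset ((Fin n → Fin 17) × (Fin n → Fin 17)) := Finset.univ.filter (fun p =>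
    len (((List.ofFn p.1).reverse ++ List.ofFn p.2).foldr L (o 17)) ≤ m + m) with hPdef
  have hcard : P.card ≤ (Finset.univ.filter (fun w : Fin (n + n) → Fin 17 =>
      len ((List.ofFn w).foldr L (o 17)) ≤ m + m)).card := by
    apply Finset.card_le_card_of_injOn (fun p => Fin.append (p.1 ∘ Fin.rev) p.2)
    · intro p hp
      have hp' := (Finset.mem_filter.1 (Finset.mem_coe.1 hp)).2
      simp only [Finset.coe_filter, Finset.mem_univ, true_and, Set.mem_setOf_eq]
      rw [List.ofFn_fin_append, ofFn_rev]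
      exact hp'
    · intro p _ p' _ h
      have h1 : ∀ i, p.1 i = p'.1 i := by
        intro i
        have := congrFun h (Fin.castAdd n (Fin.rev i))
        simpa only [Fin.append_left, Function.comp_apply, Fin.rev_rev] using this
      have h2 : ∀ i, p.2 i = p'.2 i := by
        intro i
        have := congrFun h (Fin.natAdd n i)
        simpa only [Fin.append_right] using this
      exact Prod.ext (funext h1) (funext h2)
  have hcard2 : (P.card : ℝ) ≤ 4 ^ (m + m) * 64 ^ n := by
    calc (P.card : ℝ) ≤ ((Finset.univ.filter (fun w : Fin (n + n) → Fin 17 =>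
          len ((List.ofFn w).foldr L (o 17)) ≤ m + m)).card : ℝ) := by exact_mod_cast hcard
      _ ≤ 4 ^ (m + m) * 8 ^ (n + n) := hW (n + n) (m + m)
      _ = 4 ^ (m + m) * 64 ^ n := by
        rw [pow_add 8 n n, ← mul_pow]; norm_num
  calc ∫ ω, (MM^[n] f ω) ^ 2 ∂PP 17 ν
      = ∑ p : (Fin n → Fin 17) × (Fin n → Fin 17),
          ∫ ω, f ω * f (aw ((List.ofFn p.1).reverse ++ List.ofFn p.2) ω) ∂PP 17 ν := by
        rw [hexp, Fintype.sum_prod_type]
    _ ≤ ∑ p : (Fin n → Fin 17) × (Fin n → Fin 17),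
          (if len (((List.ofFn p.1).reverse ++ List.ofFn p.2).foldr L (o 17)) ≤ m + m then
            C ^ 2 else 0) := by
        refine Finset.sum_le_sum fun p _ => ?_
        split_ifs with h
        · exact hbound _
        · exact (hzero _ (not_le.1 h)).le
    _ = P.card * C ^ 2 := by
        rw [← Finset.sum_filter, Finset.sum_const, nsmul_eq_mul]
    _ ≤ (4 ^ (m + m) * 64 ^ n) * C ^ 2 := by
        apply mul_le_mul_of_nonneg_right hcard2 (sq_nonneg C)
    _ = C ^ 2 * 4 ^ (m + m) * 64 ^ n := by ring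

end Pool.Agent.Q39.MD17
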