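import Pool.Agent.Q39.MD17.Stmts

/-! T5 of the blueprint. -/

namespace Pool.Agent.Q39.MD17

theorem preList_length {d : ℕ} (i : Fin d) (w : List (Fin d)) :
    w.length ≤ (preList i w).length + 1 := by
  cases w with
  | nil => simp
  | cons j w =>
    show (j :: w).length ≤ (if j = i then w else i :: j :: w).length + 1
    split_ifs with h
    · simp
    · simp only [List.length_cons]; omega

theorem len_R {d : ℕ} (i : Fin d) (z : V d) : len z ≤ len (R i z) + 1 := by
  have h := preList_length i z.1.reverse
  show z.1.length ≤ ((preList i z.1.reverse).reverse).length + 1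
  rw [List.length_reverse] at h ⊢
  exact h

theorem foldr_R (hLR : TaskLR) {d : ℕ} (w : List (Fin d)) (j : Fin d) (z : V d) :
    w.foldr L (R j z) = R j (w.foldr L z) := by
  induction w with
  | nil => rfl
  | cons a w ih => rw [List.foldr_cons, List.foldr_cons, ih, hLR]

theorem exists_R {d : ℕ} (x : V d) (hx : 0 < len x) :
    ∃ (a : Fin d) (x' : V d), len x' + 1 = len x ∧ x = R a x' := by
  have hc : x.1.reverse.IsChain (· ≠ ·) := by
    rw [List.isChain_reverse]
    exact x.2.imp fun _ _ h => Ne.symm h
  rcases h : x.1.reverse with _ | ⟨a, t⟩
  · exfalso
    have : x.1.reverse.length = 0 := by rw [h]; rfl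
    rw [List.length_reverse] at this
    unfold len at hx
    omega
  · rw [h] at hc
    have ht : (t.reverse).IsChain (· ≠ ·) := by
      rw [List.isChain_reverse]
      exact hc.tail.imp fun _ _ h => Ne.symm h
    refine ⟨a, ⟨t.reverse, ht⟩, ?_, ?_⟩
    · show t.reverse.length + 1 = x.1.length
      rw [List.length_reverse, ← List.length_reverse (as := x.1), h, List.length_cons]
    · apply Subtype.ext
      show x.1 = (preList a (t.reverse).reverse).reverse
      rw [List.reverse_reverse]
      have hp : preList a t = a :: t := by
        cases t with
        | nil => rfl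
        | cons b t =>
          show (if b = a then t else a :: b :: t) = a :: b :: t
          rw [if_neg]
          intro hba
          rw [List.isChain_cons_cons] at hc
          exact hc.1 hba.symm
      rw [hp, ← h, List.reverse_reverse]

theorem taskDist (hLR : TaskLR) : TaskDist := by
  intro d w x y hy
  subst hy
  have key : ∀ (n : ℕ) (x : V d), len x = n →
      len (w.foldr L (o d)) ≤ len x + len (w.foldr L x) := by
    intro n
    induction n with
    | zero =>
      intro x hx
      have : x = o d := by
        apply Subtype.ext
        exact List.eq_nil_of_length_eq_zero hx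
      subst this
      omega
    | succ n ih =>
      intro x hx
      obtain ⟨a, x', h1, h2⟩ := exists_R x (by omega)
      have h3 := ih x' (by omega)
      have h4 := len_R a (w.foldr L x')
      rw [h2, foldr_R hLR]
      rw [h2] at h1
      omega
  exact key _ x rfl

end Pool.Agent.Q39.MD17
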