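import Pool.Agent.Q39.MD17.Stmts

/-! E1: the energy of an edge (helper331) -/

namespace Pool.Agent.Q39.MD17

open MeasureTheory ProbabilityTheory Filter Topology Finset

private theorem TaskEdge_sg_not (q q' : Prop) (h : ¬ (q ↔ q')) : sg q' = - sg q := by
  unfold sg
  by_cases hq : q <;> by_cases hq' : q' <;> simp_all

private theorem TaskEdge_sg_iff (q q' : Prop) (h : q ↔ q') : sg q = sg q' := by
  rw [propext h]

private theorem TaskEdge_ne (x : V 17) (i : Fin 17) : R i x ≠ x := by
  intro h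
  have h1 : (R i x).1.length = x.1.length := by rw [h]
  have h2 : (preList i x.1.reverse).length = x.1.reverse.length := by
    simpa [R] using h1
  cases hx : x.1.reverse with
  | nil => rw [hx] at h2; simp [preList] at h2
  | cons j w =>
    rw [hx] at h2
    simp only [preList] at h2
    split_ifs at h2 <;> simp at h2

private theorem TaskEdge_disj (ω : Om 17 Lab) (h : GoodW ω) (x y : V 17) (hxy : x ≠ y) (s : ℝ)
    (hx : s ∈ Ring (ω x)) (hy : s ∈ Ring (ω y)) : False := by
  obtain ⟨k, j, hj, e⟩ := hx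
  obtain ⟨k', j', hj', e'⟩ := hy
  have p1 := h.pos x k j
  have p2 := h.pos y k' j'
  have e3 : (k:ℝ) + ((ω x).2 k).2 j = k' + ((ω y).2 k').2 j' := by
    have := e.symm.trans e'
    linarith
  have hk : k = k' := by
    have h1 : (k:ℝ) < k' + 1 := by linarith [p1.1, p2.2]
    have h2 : (k':ℝ) < k + 1 := by linarith [p1.2, p2.1]
    have h1' : k < k' + 1 := by exact_mod_cast h1
    have h2' : k' < k + 1 := by exact_mod_cast h2
    omega
  subst hk
  refine h.ne x k y j j' (fun hh => hxy (congrArg Prod.fst hh)) (by linarith)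

private theorem TaskEdge_pos (ω : Om 17 Lab) (h : GoodW ω) (z : V 17) (s : ℝ)
    (hs : s ∈ Ring (ω z)) : 0 < s := by
  obtain ⟨k, j, hj, e⟩ := hs
  have p1 := (h.pos z k j).1
  have : (0:ℝ) ≤ k := Nat.cast_nonneg k
  rw [e]
  positivity

/-- one step at the last ring `m` before `t`: the vertex `z'` does not ring in `[m, t)` -/
private theorem TaskEdge_stay (hC : TaskConst) (p : ℝ) (ω : Om 17 Lab) (v : V 17 → ℝ → Prop)
    (hω : GoodW ω) (hv : IsSol p ω v) (z : V 17) (m t : ℝ) (hmt : m < t)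
    (hmax : ∀ s ∈ Ring (ω z), s < t → s < m) :
    (v z m ↔ v z t) ∧ Flip ω v z t = Flip ω v z m := by
  refine ⟨(hC p ω v hω hv z).2 m t hmt.le (fun r hr => ?_), ?_⟩
  · rcases lt_or_ge r t with h | h
    · exact Or.inl (hmax r hr h)
    · exact Or.inr h
  · ext s
    simp only [Flip, Set.mem_setOf_eq]
    constructor
    · rintro ⟨h1, h2, h3⟩
      exact ⟨h1, hmax s h1 h2, h3⟩
    · rintro ⟨h1, h2, h3⟩
      exact ⟨h1, h2.trans hmt, h3⟩

/-- one step at the last ring `m` before `t`: the vertex `z` rings at `m` -/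
private theorem TaskEdge_move (p : ℝ) (ω : Om 17 Lab) (v : V 17 → ℝ → Prop)
    (hv : IsSol p ω v) (z : V 17) (m t : ℝ) (hmt : m < t) (hm : m ∈ Ring (ω z))
    (hmax : ∀ s ∈ Ring (ω z), s < t → s ≤ m) :
    ((v z m ↔ v z t) ∧ Flip ω v z t = Flip ω v z m) ∨
      (sg (v z t) = - sg (v z m) ∧ Flip ω v z t = insert m (Flip ω v z m)) := by
  have h1 := (hv z t).2 m hm hmt hmax
  by_cases hf : v z m ↔ maj (fun i => v (R i z) m)
  · refine Or.inl ⟨hf.trans h1.symm, ?_⟩
    ext s
    simp only [Flip, Set.mem_setOf_eq]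
    constructor
    · rintro ⟨h2, h3, h4⟩
      refine ⟨h2, lt_of_le_of_ne (hmax s h2 h3) ?_, h4⟩
      rintro rfl
      exact h4 hf
    · rintro ⟨h2, h3, h4⟩
      exact ⟨h2, h3.trans hmt, h4⟩
  · refine Or.inr ⟨?_, ?_⟩
    · rw [TaskEdge_sg_iff _ _ h1]
      exact TaskEdge_sg_not _ _ hf
    · ext s
      simp only [Flip, Set.mem_setOf_eq, Set.mem_insert_iff]
      constructor
      · rintro ⟨h2, h3, h4⟩
        rcases eq_or_lt_of_le (hmax s h2 h3) with h | h
        · exact Or.inl h
        · exact Or.inr ⟨h2, h, h4⟩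
      · rintro (rfl | ⟨h2, h3, h4⟩)
        · exact ⟨hm, hmt, hf⟩
        · exact ⟨h2, h3.trans hmt, h4⟩

theorem taskEdge (hC : TaskConst) : TaskEdge := by
  intro p ω v hω hv x i t ht
  have hxy : R i x ≠ x := TaskEdge_ne x i
  generalize R i x = y at hxy
  have Fx := hC p ω v hω hv x
  have Fy := hC p ω v hω hv y
  have key : ∀ n : ℕ, ∀ t : ℝ, 0 ≤ t →
      ({s | s ∈ Ring (ω x) ∧ s < t} ∪ {s | s ∈ Ring (ω y) ∧ s < t}).ncard = n →
      sg (v x t) * sg (v y t) - sg (v x 0) * sg (v y 0) =
        -2 * (∑ᶠ s ∈ Flip ω v x t, sg (v x s) * sg (v y s)) -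
        2 * (∑ᶠ s ∈ Flip ω v y t, sg (v x s) * sg (v y s)) := by
    intro n
    induction n using Nat.strong_induction_on with
    | _ n ih =>
      intro t ht hn
      have hfin : ({s | s ∈ Ring (ω x) ∧ s < t} ∪ {s | s ∈ Ring (ω y) ∧ s < t}).Finite :=
        (Fx.1 t).union (Fy.1 t)
      rcases Set.eq_empty_or_nonempty
        ({s | s ∈ Ring (ω x) ∧ s < t} ∪ {s | s ∈ Ring (ω y) ∧ s < t}) with he | hne
      · have nx : ∀ r ∈ Ring (ω x), t ≤ r := fun r hr => by
          by_contra hlt
          have : r ∈ ({s | s ∈ Ring (ω x) ∧ s < t} ∪ {s | s ∈ Ring (ω y) ∧ s < t}) :=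
            Or.inl ⟨hr, not_le.mp hlt⟩
          rw [he] at this
          exact this
        have ny : ∀ r ∈ Ring (ω y), t ≤ r := fun r hr => by
          by_contra hlt
          have : r ∈ ({s | s ∈ Ring (ω x) ∧ s < t} ∪ {s | s ∈ Ring (ω y) ∧ s < t}) :=
            Or.inr ⟨hr, not_le.mp hlt⟩
          rw [he] at this
          exact this
        have cx := Fx.2 0 t ht (fun r hr => Or.inr (nx r hr))
        have cy := Fy.2 0 t ht (fun r hr => Or.inr (ny r hr))
        have fx : Flip ω v x t = ∅ := by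
          ext s
          simp only [Flip, Set.mem_setOf_eq, Set.mem_empty_iff_false, iff_false]
          rintro ⟨h1, h2, -⟩
          exact absurd (nx s h1) (not_le.mpr h2)
        have fy : Flip ω v y t = ∅ := by
          ext s
          simp only [Flip, Set.mem_setOf_eq, Set.mem_empty_iff_false, iff_false]
          rintro ⟨h1, h2, -⟩
          exact absurd (ny s h1) (not_le.mpr h2)
        rw [fx, fy, finsum_mem_empty, TaskEdge_sg_iff _ _ cx, TaskEdge_sg_iff _ _ cy]
        ring
      · obtain ⟨m, hmS, hmax⟩ := Set.exists_max_image _ id hfin hne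
        have hmt : m < t := by rcases hmS with h | h <;> exact h.2
        have hm0 : 0 ≤ m := by
          rcases hmS with h | h
          · exact (TaskEdge_pos ω hω x m h.1).le
          · exact (TaskEdge_pos ω hω y m h.1).le
        have hmx : ∀ s ∈ Ring (ω x), s < t → s ≤ m := fun s h1 h2 => hmax s (Or.inl ⟨h1, h2⟩)
        have hmy : ∀ s ∈ Ring (ω y), s < t → s ≤ m := fun s h1 h2 => hmax s (Or.inr ⟨h1, h2⟩)
        have hss : ({s | s ∈ Ring (ω x) ∧ s < m} ∪ {s | s ∈ Ring (ω y) ∧ s < m}) ⊂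
            ({s | s ∈ Ring (ω x) ∧ s < t} ∪ {s | s ∈ Ring (ω y) ∧ s < t}) := by
          rw [Set.ssubset_iff_of_subset]
          · refine ⟨m, hmS, ?_⟩
            rintro (h | h)
            · exact lt_irrefl _ h.2
            · exact lt_irrefl _ h.2
          · rintro s (h | h)
            · exact Or.inl ⟨h.1, h.2.trans hmt⟩
            · exact Or.inr ⟨h.1, h.2.trans hmt⟩
        have hlt := Set.ncard_lt_ncard hss hfin
        rw [hn] at hlt
        have IH := ih _ hlt m hm0 rfl
        have hnf : ∀ z, m ∉ Flip ω v z m := fun z h => lt_irrefl _ h.2.1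
        have finx : (Flip ω v x m).Finite := (Fx.1 m).subset (fun s h => ⟨h.1, h.2.1⟩)
        have finy : (Flip ω v y m).Finite := (Fy.1 m).subset (fun s h => ⟨h.1, h.2.1⟩)
        rcases hmS with hm | hm
        · have hmy' : ∀ s ∈ Ring (ω y), s < t → s < m := fun s h1 h2 =>
            lt_of_le_of_ne (hmy s h1 h2) (by
              rintro rfl
              exact TaskEdge_disj ω hω y x hxy _ h1 hm.1)
          obtain ⟨sy, fy⟩ := TaskEdge_stay hC p ω v hω hv y m t hmt hmy'
          rw [fy, ← TaskEdge_sg_iff _ _ sy]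
          rcases TaskEdge_move p ω v hv x m t hmt hm.1 hmx with ⟨sx, fx⟩ | ⟨sx, fx⟩
          · rw [fx, ← TaskEdge_sg_iff _ _ sx]
            exact IH
          · rw [fx, sx, finsum_mem_insert _ (hnf x) finx]
            linarith
        · have hmx' : ∀ s ∈ Ring (ω x), s < t → s < m := fun s h1 h2 =>
            lt_of_le_of_ne (hmx s h1 h2) (by
              rintro rfl
              exact TaskEdge_disj ω hω y x hxy _ hm.1 h1)
          obtain ⟨sx, fx⟩ := TaskEdge_stay hC p ω v hω hv x m t hmt hmx'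
          rw [fx, ← TaskEdge_sg_iff _ _ sx]
          rcases TaskEdge_move p ω v hv y m t hmt hm.1 hmy with ⟨sy, fy⟩ | ⟨sy, fy⟩
          · rw [fy, ← TaskEdge_sg_iff _ _ sy]
            exact IH
          · rw [fy, sy, finsum_mem_insert _ (hnf y) finy]
            linarith
  exact key _ t ht rfl

end Pool.Agent.Q39.MD17
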