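import Pool.Agent.Q39.MD17.Stmts

namespace Pool.Agent.Q39.MD17

open MeasureTheory ProbabilityTheory Filter Topology Finset
open scoped BigOperators

/-- after the last flip the spin is constant -/
private lemma taskFix_fix_of_bound {p : ℝ} {ω : Om 17 Lab} {v : V 17 → ℝ → Prop} (hC : TaskConst)
    (hg : GoodW ω) (hs : IsSol p ω v) (x : V 17) (N : ℕ)
    (hN : ∀ T : ℕ, (Flip ω v x T).ncard ≤ N) : ∃ T : ℝ, ∀ t, T ≤ t → (v x t ↔ v x T) := by
  obtain ⟨hfin, hconst⟩ := hC p ω v hg hs x
  have hFfin : ∀ T : ℝ, (Flip ω v x T).Finite := fun T =>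
    (hfin T).subset fun s hs => ⟨hs.1, hs.2.1⟩
  -- the set of all flips is finite
  set F : Set ℝ := {s | s ∈ Ring (ω x) ∧ ¬ (v x s ↔ maj (fun i => v (R i x) s))} with hF
  have hFin : F.Finite := by
    by_contra hinf
    obtain ⟨t, ht1, ht2⟩ := Set.Infinite.exists_subset_card_eq hinf (N + 1)
    obtain ⟨M, hM⟩ : ∃ M : ℕ, ∀ s ∈ t, s < M := by
      obtain ⟨b, hb⟩ := t.bddAbove
      obtain ⟨M, hM⟩ := exists_nat_gt b
      exact ⟨M, fun s hs => lt_of_le_of_lt (hb hs) hM⟩
    have hsub : (t : Set ℝ) ⊆ Flip ω v x M := fun s hs => ⟨(ht1 hs).1, hM s hs, (ht1 hs).2⟩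
    have h1 := Set.ncard_le_ncard hsub (hFfin M)
    rw [Set.ncard_coe_finset, ht2] at h1
    have := hN M
    omega
  obtain ⟨T, hT⟩ : ∃ T : ℝ, ∀ s ∈ F, s < T := by
    obtain ⟨b, hb⟩ := hFin.bddAbove
    exact ⟨b + 1, fun s hs => lt_of_le_of_lt (hb hs) (lt_add_one b)⟩
  refine ⟨T, ?_⟩
  -- induction on the number of rings in `[T, t)`
  have key : ∀ n : ℕ, ∀ t : ℝ, T ≤ t → {s | s ∈ Ring (ω x) ∧ T ≤ s ∧ s < t}.ncard = n →
      (v x t ↔ v x T) := by
    intro n
    induction n using Nat.strong_induction_on with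
    | _ n ih =>
      intro t htT hn
      have hfint : {s | s ∈ Ring (ω x) ∧ T ≤ s ∧ s < t}.Finite :=
        (hfin t).subset fun s hs => ⟨hs.1, hs.2.2⟩
      by_cases hemp : {s | s ∈ Ring (ω x) ∧ T ≤ s ∧ s < t} = ∅
      · have := hconst T t htT (fun r hr => by
          by_contra hcon
          push Not at hcon
          have : r ∈ {s | s ∈ Ring (ω x) ∧ T ≤ s ∧ s < t} := ⟨hr, hcon.1, hcon.2⟩
          rw [hemp] at this
          exact this)
        exact this.symm
      · obtain ⟨s, hs', hmax⟩ := Set.exists_max_image _ id hfint (Set.nonempty_iff_ne_empty.2 hemp)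
        obtain ⟨hsR, hTs, hst⟩ := hs'
        have h1 : v x t ↔ maj (fun i => v (R i x) s) := by
          refine (hs x t).2 s hsR hst fun s' hs'R hs't => ?_
          by_cases h : T ≤ s'
          · exact hmax s' ⟨hs'R, h, hs't⟩
          · push Not at h
            linarith
        have h2 : v x s ↔ maj (fun i => v (R i x) s) := by
          by_contra hcon
          have := hT s ⟨hsR, hcon⟩
          linarith
        have h3 : {r | r ∈ Ring (ω x) ∧ T ≤ r ∧ r < s}.ncard < n := by
          rw [← hn]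
          apply Set.ncard_lt_ncard _ hfint
          constructor
          · intro r hr
            exact ⟨hr.1, hr.2.1, hr.2.2.trans hst⟩
          · intro hcon
            have : s ∈ {r | r ∈ Ring (ω x) ∧ T ≤ r ∧ r < s} := hcon ⟨hsR, hTs, hst⟩
            exact lt_irrefl _ this.2.2
        exact h1.trans (h2.symm.trans (ih _ h3 s hTs rfl))
  intro t ht
  exact key _ t ht rfl

theorem taskFix (h1 : TaskMeanFlips) (h2 : TaskSwap) (h3 : TaskConst) (h4 : TaskPres)
    (h5 : TaskGoodAE) (h6 : TaskIntG) : TaskFix := by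
  intro p v hm hv
  have hgood : ∀ᵐ ω ∂PP 17 law, GoodW ω := h5
  -- the root
  have hroot : ∀ᵐ ω ∂PP 17 law, ∃ T : ℝ, ∀ t, T ≤ t → (v ω (o 17) t ↔ v ω (o 17) T) := by
    set f : ℕ → Om 17 Lab → ENNReal :=
      fun T ω => ((Flip ω (v ω) (o 17) T).ncard : ENNReal) with hf
    have hfin : ∀ ω, GoodW ω → ∀ T : ℝ, (Flip ω (v ω) (o 17) T).Finite := fun ω hω T =>
      ((h3 p ω (v ω) hω (hv ω hω) (o 17)).1 T).subset fun s hs => ⟨hs.1, hs.2.1⟩
    have hmeas : ∀ T, AEMeasurable (f T) (PP 17 law) := by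
      intro T
      have hi := (h6 p v hm hv (o 17) (o 17) (o 17) T).aestronglyMeasurable.aemeasurable
      have := hi.ennreal_ofReal
      refine this.congr ?_
      filter_upwards [hgood] with ω hω
      have hsq : ∀ s, sg (v ω (o 17) s) * sg (v ω (o 17) s) = 1 := by
        intro s
        unfold sg
        split_ifs <;> norm_num
      simp only [hsq, hf]
      rw [finsum_mem_eq_finite_toFinset_sum _ (hfin ω hω T), Finset.sum_const, nsmul_eq_mul,
        mul_one, ENNReal.ofReal_natCast, Set.ncard_eq_toFinset_card _ (hfin ω hω T)]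
    have hmono : ∀ᵐ ω ∂PP 17 law, Monotone fun T => f T ω := by
      filter_upwards [hgood] with ω hω
      intro S T hST
      simp only [hf]
      have : (Flip ω (v ω) (o 17) S).ncard ≤ (Flip ω (v ω) (o 17) T).ncard := by
        apply Set.ncard_le_ncard _ (hfin ω hω T)
        intro s hs
        have : (S : ℝ) ≤ T := by exact_mod_cast hST
        exact ⟨hs.1, lt_of_lt_of_le hs.2.1 this, hs.2.2⟩
      exact_mod_cast this
    have hint : ∫⁻ ω, ⨆ T, f T ω ∂PP 17 law ≤ 9 := by
      rw [lintegral_iSup' hmeas hmono]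
      exact iSup_le fun T => h1 p v hm hv T
    have hlt : ∀ᵐ ω ∂PP 17 law, (⨆ T, f T ω) < ⊤ := by
      apply ae_lt_top' (AEMeasurable.iSup hmeas)
      exact ne_top_of_le_ne_top (by norm_num) hint
    filter_upwards [hgood, hlt] with ω hω hω2
    obtain ⟨N, hN⟩ := ENNReal.exists_nat_gt hω2.ne
    apply taskFix_fix_of_bound h3 hω (hv ω hω) (o 17) N
    intro T
    have : f T ω ≤ ⨆ T, f T ω := le_iSup (fun T => f T ω) T
    have h7 : f T ω < N := lt_of_le_of_lt this hN
    simp only [hf] at h7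
    exact_mod_cast h7.le
  -- the other vertices
  have hall : ∀ (w : List (Fin 17)) (hw : w.IsChain (· ≠ ·)),
      ∀ᵐ ω ∂PP 17 law, ∃ T : ℝ, ∀ t, T ≤ t → (v ω ⟨w, hw⟩ t ↔ v ω ⟨w, hw⟩ T) := by
    intro w
    induction w with
    | nil => intro hw; exact hroot
    | cons i w ih =>
      intro hw
      have hw' : w.IsChain (· ≠ ·) := hw.tail
      have hL : L i ⟨w, hw'⟩ = ⟨i :: w, hw⟩ := by
        apply Subtype.ext
        cases w with
        | nil => rfl
        | cons j w =>
          have hij : i ≠ j := by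
            cases hw
            assumption
          show (if j = i then w else i :: j :: w) = _
          rw [if_neg (Ne.symm hij)]
      have h7 := (h4 17 Lab law i).quasiMeasurePreserving.ae (ih hw')
      filter_upwards [h7, hgood] with ω hω hg
      obtain ⟨T, hT⟩ := hω
      refine ⟨T, fun t ht => ?_⟩
      have h8 := (h2 p v hm hv).1 ω hg i ⟨w, hw'⟩
      rw [hL] at h8
      rw [← h8 t, ← h8 T]
      exact hT t ht
  rw [ae_all_iff]
  rintro ⟨w, hw⟩
  exact hall w hw

end Pool.Agent.Q39.MD17
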