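import Pool.Agent.Q39.MD17.Stmts

/-! Independence of functions of disjoint sets of labels (blueprint lemma for `MP_a7d87e_pr`). -/

namespace Pool.Agent.Q39.MD17

open MeasureTheory ProbabilityTheory Filter Topology Finset

/-- extension of a labelling of `B` by a constant -/
def taskIndepExt {d : ℕ} {E : Type} (e : E) (B : Finset (V d)) (ρ : B → E) : Om d E := fun x =>
  if h : x ∈ B then ρ ⟨x, h⟩ else e

lemma taskIndep_meas {d : ℕ} {E : Type} [MeasurableSpace E] (e : E) (B : Finset (V d)) :
    Measurable (taskIndepExt e B) := by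
  rw [measurable_pi_iff]
  intro x
  by_cases h : x ∈ B
  · have : (fun ρ : B → E => taskIndepExt e B ρ x) = fun ρ => ρ ⟨x, h⟩ := by
      funext ρ; unfold taskIndepExt; rw [dif_pos h]
    rw [this]
    exact measurable_pi_apply _
  · have : (fun ρ : B → E => taskIndepExt e B ρ x) = fun _ => e := by
      funext ρ; unfold taskIndepExt; rw [dif_neg h]
    rw [this]
    exact measurable_const

lemma taskIndep_eq {d : ℕ} {E : Type} (e : E) (B : Finset (V d)) (f : Om d E → ℝ)
    (hf : Dep B f) (ω : Om d E) : f ω = f (taskIndepExt e B (fun i : B => ω i)) := by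
  apply hf
  intro x hx
  unfold taskIndepExt
  rw [dif_pos hx]

theorem taskIndep : TaskIndep := by
  intro d E _ ν _ B B' f g C hBB hf hg hfC hgC hfB hgB
  have hne : Nonempty E := by
    have := nonempty_of_isProbabilityMeasure ν
    exact this
  obtain ⟨e⟩ := hne
  have h1 : iIndepFun (fun (i : V d) (ω : Om d E) => ω i) (PP d ν) :=
    iIndepFun_infinitePi (P := fun _ : V d => ν) (X := fun _ => id) (fun _ => measurable_id)
  have h2 := h1.indepFun_finset B B' hBB (fun i => measurable_pi_apply i)
  have h3 := h2.comp (hf.comp (taskIndep_meas e B)) (hg.comp (taskIndep_meas e B'))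
  have h4 : IndepFun f g (PP d ν) := by
    have e1 : (f ∘ taskIndepExt e B) ∘ (fun (ω : Om d E) (i : B) => ω i) = f := by
      funext ω; exact (taskIndep_eq e B f hfB ω).symm
    have e2 : (g ∘ taskIndepExt e B') ∘ (fun (ω : Om d E) (i : B') => ω i) = g := by
      funext ω; exact (taskIndep_eq e B' g hgB ω).symm
    rw [e1, e2] at h3
    exact h3
  exact h4.integral_fun_mul_eq_mul_integral hf.aestronglyMeasurable hg.aestronglyMeasurable

end Pool.Agent.Q39.MD17
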