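import Pool.Agent.Q39.MD17.Stmts

namespace Pool.Agent.Q39.MD17

theorem taskLogConv : TaskLogConv := by
  intro b hb hl hK
  obtain ⟨K, hK⟩ := hK
  by_contra hcon
  rw [not_le] at hcon
  have h0 : 0 < b 0 := by
    rcases (hb 0).lt_or_eq with h | h
    · exact h
    · exfalso
      have h1 := hl 0
      rw [← h, zero_mul, zero_add] at h1
      rw [← h, mul_zero] at hcon
      nlinarith
  set ρ := b 1 / b 0 with hρ
  have hρ1 : b 1 = ρ * b 0 := by rw [hρ]; field_simp
  have hρ64 : 64 < ρ := by rw [hρ, lt_div_iff₀ h0]; exact hcon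
  have key : ∀ n, 0 < b n ∧ ρ * b n ≤ b (n + 1) := by
    intro n
    induction n with
    | zero => exact ⟨h0, hρ1.ge⟩
    | succ n ih =>
      obtain ⟨h1, h2⟩ := ih
      have h3 : 0 < b (n + 1) := lt_of_lt_of_le (by positivity) h2
      refine ⟨h3, ?_⟩
      have h4 := hl n
      have h5 : b n * (ρ * b (n + 1)) ≤ b n * b (n + 1 + 1) := by
        calc b n * (ρ * b (n + 1)) = (ρ * b n) * b (n + 1) := by ring
          _ ≤ b (n + 1) * b (n + 1) := mul_le_mul_of_nonneg_right h2 h3.le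
          _ = b (n + 1) ^ 2 := by ring
          _ ≤ b n * b (n + 1 + 1) := h4
      exact le_of_mul_le_mul_left h5 h1
  have key2 : ∀ n, ρ ^ n * b 0 ≤ b n := by
    intro n
    induction n with
    | zero => simp
    | succ n ih =>
      calc ρ ^ (n + 1) * b 0 = ρ * (ρ ^ n * b 0) := by ring
        _ ≤ ρ * b n := mul_le_mul_of_nonneg_left ih (by linarith)
        _ ≤ b (n + 1) := (key n).2
  have h1 : 1 < ρ / 64 := by rw [lt_div_iff₀ (by norm_num)]; linarith
  obtain ⟨n, hn⟩ := pow_unbounded_of_one_lt (K / b 0) h1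
  rw [div_lt_iff₀ h0, div_pow] at hn
  have h2 := (key2 n).trans (hK n)
  have h3 : (0 : ℝ) < 64 ^ n := by positivity
  have h4 : K < ρ ^ n / 64 ^ n * b 0 := hn
  have h5 : ρ ^ n / 64 ^ n * b 0 * 64 ^ n = ρ ^ n * b 0 := by field_simp
  have h6 : K * 64 ^ n < ρ ^ n * b 0 := by
    rw [← h5]; exact mul_lt_mul_of_pos_right h4 h3
  linarith

end Pool.Agent.Q39.MD17
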