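import Pool.Agent.Q39.MD17.Stmts

/-! Blueprint for MP_a7d87e_pr: the mean number of flips of the root. -/

namespace Pool.Agent.Q39.MD17

open MeasureTheory ProbabilityTheory Filter Topology Finset
open scoped BigOperators

theorem taskMeanFlips_sg_le (a b : Prop) : sg a * sg b ≤ 1 := by
  unfold sg
  split_ifs <;> norm_num

theorem taskMeanFlips_le_sg (a b : Prop) : -1 ≤ sg a * sg b := by
  unfold sg
  split_ifs <;> norm_num

theorem taskMeanFlips (h1 : TaskGoodAE) (h2 : TaskEdge) (h3 : TaskDrop) (h4 : TaskConst)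
    (h5 : TaskIntG) (h6 : TaskSwap) : TaskMeanFlips := by
  intro p v hm hs T
  have hGi : ∀ i : Fin 17, Integrable (fun ω => ∑ᶠ s ∈ Flip ω (v ω) (o 17) T,
      sg (v ω (o 17) s) * sg (v ω (R i (o 17)) s)) (PP 17 law) :=
    fun i => h5 p v hm hs (o 17) (o 17) (R i (o 17)) T
  have hHi : ∀ i : Fin 17, Integrable (fun ω => ∑ᶠ s ∈ Flip ω (v ω) (R i (o 17)) T,
      sg (v ω (o 17) s) * sg (v ω (R i (o 17)) s)) (PP 17 law) :=
    fun i => h5 p v hm hs (R i (o 17)) (o 17) (R i (o 17)) T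
  have hGH := (h6 p v hm hs).2
  set G : Fin 17 → Om 17 Lab → ℝ := fun i ω => ∑ᶠ s ∈ Flip ω (v ω) (o 17) T,
      sg (v ω (o 17) s) * sg (v ω (R i (o 17)) s) with hG
  set H : Fin 17 → Om 17 Lab → ℝ := fun i ω => ∑ᶠ s ∈ Flip ω (v ω) (R i (o 17)) T,
      sg (v ω (o 17) s) * sg (v ω (R i (o 17)) s) with hH
  have hge : ∀ i : Fin 17, ∀ᵐ ω ∂PP 17 law, (-1 : ℝ) ≤ G i ω + H i ω := by
    intro i
    filter_upwards [h1] with ω hω
    have hE := h2 p ω (v ω) hω (hs ω hω) (o 17) i T (Nat.cast_nonneg T)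
    have e1 := taskMeanFlips_sg_le (v ω (o 17) T) (v ω (R i (o 17)) T)
    have e2 := taskMeanFlips_le_sg (v ω (o 17) 0) (v ω (R i (o 17)) 0)
    have hE' : sg (v ω (o 17) T) * sg (v ω (R i (o 17)) T) -
        sg (v ω (o 17) 0) * sg (v ω (R i (o 17)) 0) = -2 * G i ω - 2 * H i ω := hE
    linarith
  have hint : ∀ i : Fin 17, (-1 / 2 : ℝ) ≤ ∫ ω, G i ω ∂PP 17 law := by
    intro i
    have h := integral_mono_ae (integrable_const (-1 : ℝ)) ((hGi i).add (hHi i)) (hge i)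
    have h' : ∫ ω, ((fun ω => G i ω) + (fun ω => H i ω)) ω ∂PP 17 law =
        ∫ ω, G i ω ∂PP 17 law + ∫ ω, H i ω ∂PP 17 law := integral_add' (hGi i) (hHi i)
    have h'' : ∫ ω, H i ω ∂PP 17 law = ∫ ω, G i ω ∂PP 17 law := hGH i T
    have hc : ∫ _ω : Om 17 Lab, (-1 : ℝ) ∂PP 17 law = -1 := by simp
    have h3' : (-1 : ℝ) ≤ ∫ ω, G i ω ∂PP 17 law + ∫ ω, H i ω ∂PP 17 law := by
      rw [← hc, ← h']
      exact h
    linarith
  have hle : ∀ᵐ ω ∂PP 17 law, ((Flip ω (v ω) (o 17) T).ncard : ℝ) ≤ -∑ i, G i ω := by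
    filter_upwards [h1] with ω hω
    have hfin : (Flip ω (v ω) (o 17) T).Finite :=
      ((h4 p ω (v ω) hω (hs ω hω) (o 17)).1 T).subset (fun s hs => ⟨hs.1, hs.2.1⟩)
    have hGs : ∀ i, G i ω = ∑ s ∈ hfin.toFinset, sg (v ω (o 17) s) * sg (v ω (R i (o 17)) s) :=
      fun i => finsum_mem_eq_finite_toFinset_sum _ hfin
    simp only [hGs]
    rw [Finset.sum_comm, Set.ncard_eq_toFinset_card _ hfin, ← Finset.sum_neg_distrib]
    have hc : ((hfin.toFinset.card : ℕ) : ℝ) = ∑ s ∈ hfin.toFinset, (1 : ℝ) := by simp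
    rw [hc]
    refine Finset.sum_le_sum fun s hs' => ?_
    rw [Set.Finite.mem_toFinset] at hs'
    have := h3 (v ω) (o 17) s hs'.2.2
    linarith
  have hnn : ∀ᵐ ω ∂PP 17 law, (0 : ℝ) ≤ -∑ i, G i ω := by
    filter_upwards [hle] with ω hω
    exact le_trans (Nat.cast_nonneg _) hω
  have hsum : Integrable (fun ω => -∑ i, G i ω) (PP 17 law) :=
    (integrable_finset_sum _ fun i _ => hGi i).neg
  calc ∫⁻ ω, ((Flip ω (v ω) (o 17) T).ncard : ENNReal) ∂PP 17 law
      ≤ ∫⁻ ω, ENNReal.ofReal (-∑ i, G i ω) ∂PP 17 law := by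
        refine lintegral_mono_ae ?_
        filter_upwards [hle] with ω hω
        rw [← ENNReal.ofReal_natCast]
        exact ENNReal.ofReal_le_ofReal hω
    _ = ENNReal.ofReal (∫ ω, -∑ i, G i ω ∂PP 17 law) :=
        (ofReal_integral_eq_lintegral_ofReal hsum hnn).symm
    _ ≤ ENNReal.ofReal 9 := by
        refine ENNReal.ofReal_le_ofReal ?_
        rw [integral_neg, integral_finset_sum _ fun i _ => hGi i]
        have h := Finset.sum_le_sum (fun (i : Fin 17) (_ : i ∈ Finset.univ) => hint i)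
        simp only [Finset.sum_const, Finset.card_univ, Fintype.card_fin, nsmul_eq_mul] at h
        push_cast at h
        linarith
    _ = 9 := by norm_num

end Pool.Agent.Q39.MD17
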