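import Pool.Agent.Q39.MD17.Stmts

set_option autoImplicit false

namespace Pool.Agent.Q39.MD17

open MeasureTheory ProbabilityTheory Filter Topology Finset
open scoped BigOperators

/-- the grid time before `t` -/
noncomputable def taskMeasAt_q (n : ℕ) (t : ℝ) : ℝ := ((⌈((n : ℝ) + 1) * t⌉ : ℝ) - 1) / ((n : ℝ) + 1)

theorem taskMeasAt_q_lt (n : ℕ) (t : ℝ) : taskMeasAt_q n t < t := by
  unfold taskMeasAt_q
  have h1 : (0 : ℝ) < (n : ℝ) + 1 := by positivity
  rw [div_lt_iff₀ h1]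
  have := Int.ceil_lt_add_one (((n : ℝ) + 1) * t)
  linarith

theorem taskMeasAt_le_q (n : ℕ) (t : ℝ) : t - 1 / ((n : ℝ) + 1) ≤ taskMeasAt_q n t := by
  unfold taskMeasAt_q
  have h1 : (0 : ℝ) < (n : ℝ) + 1 := by positivity
  rw [le_div_iff₀ h1, sub_mul, one_div, inv_mul_cancel₀ h1.ne']
  have := Int.le_ceil (((n : ℝ) + 1) * t)
  linarith

theorem taskMeasAt (hC : TaskConst) (hG : TaskGoodAE) : TaskMeasAt := by
  intro p v hv hsol x τ hτ
  -- the set is almost everywhere equal to a measurable set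
  have hmeas : MeasurableSet {ω : Om 17 Lab | ∃ N : ℕ, ∀ n, N ≤ n → v ω x (taskMeasAt_q n (τ ω))} := by
    have h1 : ∀ n : ℕ, MeasurableSet {ω : Om 17 Lab | v ω x (taskMeasAt_q n (τ ω))} := by
      intro n
      have h2 : {ω : Om 17 Lab | v ω x (taskMeasAt_q n (τ ω))} =
          ⋃ m : ℤ, ({ω : Om 17 Lab | ⌈((n : ℝ) + 1) * τ ω⌉ = m} ∩
            {ω : Om 17 Lab | v ω x (((m : ℝ) - 1) / ((n : ℝ) + 1))}) := by
        ext ω
        simp only [Set.mem_iUnion, Set.mem_inter_iff]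
        constructor
        · intro h
          exact ⟨⌈((n : ℝ) + 1) * τ ω⌉, rfl, h⟩
        · rintro ⟨m, hm, h⟩
          have hm' : ⌈((n : ℝ) + 1) * τ ω⌉ = m := hm
          have h' : v ω x (((m : ℝ) - 1) / ((n : ℝ) + 1)) := h
          show v ω x (taskMeasAt_q n (τ ω))
          unfold taskMeasAt_q
          rw [hm']
          exact h'
      rw [h2]
      refine MeasurableSet.iUnion fun m => MeasurableSet.inter ?_ (hv x _)
      have h3 : Measurable (fun ω : Om 17 Lab => ⌈((n : ℝ) + 1) * τ ω⌉) :=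
        Int.measurable_ceil.comp (hτ.const_mul _)
      exact h3 (measurableSet_singleton m)
    have h2 : {ω : Om 17 Lab | ∃ N : ℕ, ∀ n, N ≤ n → v ω x (taskMeasAt_q n (τ ω))} =
        ⋃ N : ℕ, ⋂ n : ℕ, ⋂ _ : N ≤ n, {ω : Om 17 Lab | v ω x (taskMeasAt_q n (τ ω))} := by
      ext ω
      simp only [Set.mem_iUnion, Set.mem_iInter]
      rfl
    rw [h2]
    exact MeasurableSet.iUnion fun N => MeasurableSet.iInter fun n =>
      MeasurableSet.iInter fun _ => h1 n
  refine hmeas.nullMeasurableSet.congr ?_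
  have hG' : ∀ᵐ ω ∂PP 17 law, GoodW ω := hG
  filter_upwards [hG'] with ω hω
  -- for large `n` the spin at the grid time is the spin at `τ ω`
  have key : ∃ N : ℕ, ∀ n, N ≤ n → (v ω x (taskMeasAt_q n (τ ω)) ↔ v ω x (τ ω)) := by
    obtain ⟨hfin, hconst⟩ := hC p ω (v ω) hω (hsol ω hω) x
    have hf := hfin (τ ω)
    obtain ⟨δ, hδ, hδ'⟩ : ∃ δ : ℝ, 0 < δ ∧ ∀ r ∈ Ring (ω x), r < τ ω → r ≤ τ ω - δ := by
      by_cases hne : (hf.toFinset).Nonempty
      · obtain ⟨r0, hr0, hmax⟩ := hf.toFinset.exists_max_image (fun r => r) hne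
        rw [Set.Finite.mem_toFinset] at hr0
        refine ⟨τ ω - r0, by have := hr0.2; linarith, fun r hr hrt => ?_⟩
        have := hmax r (by rw [Set.Finite.mem_toFinset]; exact ⟨hr, hrt⟩)
        linarith
      · refine ⟨1, one_pos, fun r hr hrt => ?_⟩
        exact absurd ⟨r, by rw [Set.Finite.mem_toFinset]; exact ⟨hr, hrt⟩⟩ hne
    obtain ⟨N, hN⟩ := exists_nat_one_div_lt hδ
    refine ⟨N, fun n hn => ?_⟩
    apply hconst _ _ (taskMeasAt_q_lt n (τ ω)).le
    intro r hr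
    by_cases hrt : r < τ ω
    · left
      have h1 := hδ' r hr hrt
      have h2 := taskMeasAt_le_q n (τ ω)
      have h3 : 1 / ((n : ℝ) + 1) ≤ 1 / ((N : ℝ) + 1) := by
        apply one_div_le_one_div_of_le (by positivity)
        have : (N : ℝ) ≤ n := by exact_mod_cast hn
        linarith
      linarith
    · right
      exact not_lt.1 hrt
  obtain ⟨N, hN⟩ := key
  apply propext
  show (∃ N : ℕ, ∀ n, N ≤ n → v ω x (taskMeasAt_q n (τ ω))) ↔ v ω x (τ ω)
  constructor
  · rintro ⟨M, hM⟩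
    exact (hN (max N M) (le_max_left _ _)).1 (hM _ (le_max_right _ _))
  · intro h
    exact ⟨N, fun n hn => (hN n hn).2 h⟩

end Pool.Agent.Q39.MD17
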