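import Mathlib

/-!
# Blueprint for MP_a7d87e_pr: the fixation probability of majority dynamics on the 17-regular tree jumps

`V d`: reduced words over `Fin d` (no two consecutive letters equal), the vertices of the `d`-regular
tree; the neighbours of `x` are the `d` words `R i x` (append `i`, or delete the last letter if it is
`i`). `L i x` (prepend `i`, or delete the first letter if it is `i`) is an automorphism of the tree.
`Om d E = V d → E` are the labels, `PP ν` their product law (labels i.i.d. with law `ν`);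
`act i ω = ω ∘ L i`. For a bounded measurable function `f` of the labels, `MM f = ∑ i, f ∘ act i`.
The key is the spectral bound `∫ f * MM f ≤ 8 ∫ f^2` for `d = 17`, `∫ f = 0` (8 = 2 √16).
-/

namespace Pool.Agent.Q39.MD17

open MeasureTheory ProbabilityTheory Filter Topology Finset
open scoped BigOperators

/-- The vertices of the `d`-regular tree: words without two equal consecutive letters. -/
def V (d : ℕ) : Type := {w : List (Fin d) // w.IsChain (· ≠ ·)}

instance (d : ℕ) : Countable (V d) := inferInstanceAs (Countable {w : List (Fin d) // w.IsChain (· ≠ ·)})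

instance (d : ℕ) : DecidableEq (V d) :=
  inferInstanceAs (DecidableEq {w : List (Fin d) // w.IsChain (· ≠ ·)})

/-- prepend a letter or cancel it -/
def preList {d : ℕ} (i : Fin d) : List (Fin d) → List (Fin d)
  | [] => [i]
  | j :: w => if j = i then w else i :: j :: w

theorem preList_chain {d : ℕ} (i : Fin d) {w : List (Fin d)} (h : w.IsChain (· ≠ ·)) :
    (preList i w).IsChain (· ≠ ·) := by
  cases w with
  | nil => simp [preList]
  | cons j w =>
    show (if j = i then w else i :: j :: w).IsChain _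
    split_ifs with hj
    · exact h.tail
    · exact List.IsChain.cons_cons (Ne.symm hj) h

/-- left multiplication: prepend `i`, or delete the first letter if it is `i` -/
def L {d : ℕ} (i : Fin d) (x : V d) : V d := ⟨preList i x.1, preList_chain i x.2⟩

/-- right multiplication: append `i`, or delete the last letter if it is `i`; the neighbours of `x`
in the tree are the words `R i x` -/
def R {d : ℕ} (i : Fin d) (x : V d) : V d :=
  ⟨(preList i x.1.reverse).reverse, by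
    have h : x.1.reverse.IsChain (· ≠ ·) := by
      rw [List.isChain_reverse]
      exact x.2.imp fun _ _ h => Ne.symm h
    have h2 := preList_chain i h
    rw [List.isChain_reverse]
    exact h2.imp fun _ _ h => Ne.symm h⟩

/-- the root -/
def o (d : ℕ) : V d := ⟨[], List.IsChain.nil⟩

/-- the distance to the root -/
def len {d : ℕ} (x : V d) : ℕ := x.1.length

/-- labellings of the vertices -/
abbrev Om (d : ℕ) (E : Type) : Type := V d → E

/-- the labels are i.i.d. with law `ν` -/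
noncomputable def PP (d : ℕ) {E : Type} [MeasurableSpace E] (ν : Measure E) : Measure (Om d E) :=
  Measure.infinitePi (fun _ : V d => ν)

instance (d : ℕ) {E : Type} [MeasurableSpace E] (ν : Measure E) [IsProbabilityMeasure ν] :
    IsProbabilityMeasure (PP d ν) := by
  unfold PP
  infer_instance

/-- the action of the automorphism `L i` on labellings -/
def act {d : ℕ} {E : Type} (i : Fin d) (ω : Om d E) : Om d E := fun x => ω (L i x)

/-- the operator `f ↦ ∑ i, f ∘ act i` -/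
def MM {d : ℕ} {E : Type} (f : Om d E → ℝ) (ω : Om d E) : ℝ := ∑ i : Fin d, f (act i ω)

/-- `f` depends only on the labels in `B` -/
def Dep {d : ℕ} {E : Type} (B : Finset (V d)) (f : Om d E → ℝ) : Prop :=
  ∀ ω ω' : Om d E, (∀ x ∈ B, ω x = ω' x) → f ω = f ω'

/-- T1 -/
def TaskInvol : Prop := ∀ (d : ℕ) (i : Fin d) (x : V d), L i (L i x) = x ∧ R i (R i x) = x

/-- T2: left and right multiplications commute (cases on the words; if `x` has length at most one
treat it directly) -/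
def TaskLR : Prop := ∀ (d : ℕ) (i j : Fin d) (x : V d), L i (R j x) = R j (L i x)

/-- T3 -/
def TaskWeight : Prop := ∀ x : V 17, ∑ i : Fin 17, (1 / 4 : ℝ) ^ len (L i x) ≤ 8 * (1 / 4 : ℝ) ^ len x

/-- T4 (from T3): number of walks of length `n` that end within distance `r` of the root.
Induction: `∑_w (1/4)^len(walk w o) ≤ 8^n`. -/
def TaskWalk : Prop := ∀ n r : ℕ,
  ((Finset.univ.filter (fun w : Fin n → Fin 17 =>
    len ((List.ofFn w).foldr L (o 17)) ≤ r)).card : ℝ) ≤ 4 ^ r * 8 ^ n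

/-- T5: if the automorphism `g = L_{w_1} ... L_{w_n}` maps some `x` to `y` then
`len (g o) ≤ len x + len y` (`x` is obtained from `o` by `len x` maps `R`, which commute with `g` and
change `len` by one) -/
def TaskDist : Prop := ∀ (d : ℕ) (w : List (Fin d)) (x y : V d), w.foldr L x = y →
  len (w.foldr L (o d)) ≤ len x + len y

/-- S1: the action preserves the measure (reindexing of `infinitePi` by an involution) -/
def TaskPres : Prop := ∀ (d : ℕ) (E : Type) [MeasurableSpace E] (ν : Measure E)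
  [IsProbabilityMeasure ν] (i : Fin d), MeasurePreserving (act i) (PP d ν) (PP d ν)

/-- S2: independence of functions of disjoint sets of labels -/
def TaskIndep : Prop := ∀ (d : ℕ) (E : Type) [MeasurableSpace E] (ν : Measure E)
  [IsProbabilityMeasure ν] (B B' : Finset (V d)) (f g : Om d E → ℝ) (C : ℝ), Disjoint B B' →
  Measurable f → Measurable g → (∀ ω, |f ω| ≤ C) → (∀ ω, |g ω| ≤ C) → Dep B f → Dep B' g →
  ∫ ω, f ω * g ω ∂PP d ν = (∫ ω, f ω ∂PP d ν) * ∫ ω, g ω ∂PP d ν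

/-- S3 (from T1, T4, T5, S1, S2): `MM^n f (ω) = ∑_w f (ω ∘ L_{w_1} ∘ ...)`; expand the square, by
invariance each term is `∫ f * (f ∘ g)` with `g` a walk of length `2n`; it vanishes unless `g` maps
a point of `B` to a point of `B`; so at most `4^(2m) 8^(2n)` terms survive (`m` = largest `len` in B) -/
def TaskCylPow : Prop := ∀ (E : Type) [MeasurableSpace E] (ν : Measure E)
  [IsProbabilityMeasure ν] (B : Finset (V 17)) (f : Om 17 E → ℝ) (C : ℝ), Measurable f →
  (∀ ω, |f ω| ≤ C) → Dep B f → ∫ ω, f ω ∂PP 17 ν = 0 →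
  ∃ K : ℝ, ∀ n : ℕ, ∫ ω, (MM^[n] f ω) ^ 2 ∂PP 17 ν ≤ K * 64 ^ n

/-- S4: symmetry of `MM` and Cauchy-Schwarz -/
def TaskSym : Prop := ∀ (E : Type) [MeasurableSpace E] (ν : Measure E)
  [IsProbabilityMeasure ν] (f : Om 17 E → ℝ) (C : ℝ), Measurable f → (∀ ω, |f ω| ≤ C) → ∀ n : ℕ,
  (∫ ω, (MM^[n + 1] f ω) ^ 2 ∂PP 17 ν) ^ 2 ≤
    (∫ ω, (MM^[n] f ω) ^ 2 ∂PP 17 ν) * ∫ ω, (MM^[n + 2] f ω) ^ 2 ∂PP 17 ν

/-- S5: log-convex sequences -/
def TaskLogConv : Prop := ∀ b : ℕ → ℝ, (∀ n, 0 ≤ b n) → (∀ n, b (n + 1) ^ 2 ≤ b n * b (n + 2)) →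
  (∃ K : ℝ, ∀ n, b n ≤ K * 64 ^ n) → b 1 ≤ 64 * b 0

/-- S6 (from S3, S4, S5) -/
def TaskSpecCyl : Prop := ∀ (E : Type) [MeasurableSpace E] (ν : Measure E)
  [IsProbabilityMeasure ν] (B : Finset (V 17)) (f : Om 17 E → ℝ) (C : ℝ), Measurable f →
  (∀ ω, |f ω| ≤ C) → Dep B f → ∫ ω, f ω ∂PP 17 ν = 0 →
  ∫ ω, f ω * MM f ω ∂PP 17 ν ≤ 8 * ∫ ω, f ω ^ 2 ∂PP 17 ν

/-- S7: approximation of measurable sets by cylinder sets -/
def TaskApprox : Prop := ∀ (E : Type) [MeasurableSpace E] (ν : Measure E)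
  [IsProbabilityMeasure ν] (A : Set (Om 17 E)) (ε : ℝ), MeasurableSet A → 0 < ε →
  ∃ (A' : Set (Om 17 E)) (B : Finset (V 17)), MeasurableSet A' ∧
    (∀ ω ω' : Om 17 E, (∀ x ∈ B, ω x = ω' x) → (ω ∈ A' ↔ ω' ∈ A')) ∧
    (PP 17 ν).real (symmDiff A A') < ε

/-- S8 (from S1, S6, S7, with `f = 1_{A'} - P(A')`, `ε → 0`) -/
def TaskSpec : Prop := ∀ (E : Type) [MeasurableSpace E] (ν : Measure E)
  [IsProbabilityMeasure ν] (A : Set (Om 17 E)), MeasurableSet A →
  ∑ i : Fin 17, (PP 17 ν).real (A ∩ act i ⁻¹' A) ≤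
    17 * (PP 17 ν).real A ^ 2 + 8 * (PP 17 ν).real A * (1 - (PP 17 ν).real A)

/-- S9 (from S8): `9 θ ≤ ∑ P(A ∩ act i ⁻¹ A) ≤ 9 θ^2 + 8 θ` -/
def TaskGap : Prop := ∀ (E : Type) [MeasurableSpace E] (ν : Measure E)
  [IsProbabilityMeasure ν] (A : Set (Om 17 E)), NullMeasurableSet A (PP 17 ν) →
  (∀ᵐ ω ∂PP 17 ν, ω ∈ A → 9 ≤ {i : Fin 17 | act i ω ∈ A}.ncard) →
  (PP 17 ν).real A = 0 ∨ 1 / 9 ≤ (PP 17 ν).real A

/-! ### The dynamics -/

/-- A label: `e.1` uniform in `[0, 1]` (the initial spin is `+` iff `e.1 ≤ p`), and for every block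
`k` a number `(e.2 k).1` of rings in `[k/32, (k+1)/32]` and the positions `(e.2 k).2 j` in `[0, 1]` -/
abbrev Lab : Type := ℝ × (ℕ → ℕ × (ℕ → ℝ))

/-- the uniform law on `[0, 1]` -/
noncomputable def unif : Measure ℝ := volume.restrict (Set.Icc 0 1)

/-- The law of a label: uniform initial label; in each block a Poisson(1/32) number of rings at
independent uniform places: the rings form a Poisson process of rate one on `[0, ∞)`. -/
noncomputable def law : Measure Lab :=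
  unif.prod (Measure.infinitePi (fun _ : ℕ =>
    (poissonMeasure (1 / 32)).prod (Measure.infinitePi (fun _ : ℕ => unif))))

instance : IsProbabilityMeasure unif := ⟨by simp [unif]⟩

instance : IsProbabilityMeasure law := by
  unfold law
  infer_instance

/-- the ring times -/
def Ring (e : Lab) : Set ℝ := {t | ∃ k j : ℕ, j < (e.2 k).1 ∧ t = ((k : ℝ) + (e.2 k).2 j) / 32}

/-- majority of 17 spins -/
def maj (b : Fin 17 → Prop) : Prop := 9 ≤ {i : Fin 17 | b i}.ncard

/-- `v x t` says that the spin at `x` just before time `t` is `+`. Rules: without a ring before `t`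
it is the initial spin; if `s < t` is the last ring of `x` before `t` then it is the majority of the
spins of the neighbours `R i x` just before `s`. -/
def IsSol (p : ℝ) (ω : Om 17 Lab) (v : V 17 → ℝ → Prop) : Prop :=
  ∀ (x : V 17) (t : ℝ),
    ((∀ s ∈ Ring (ω x), t ≤ s) → (v x t ↔ (ω x).1 ≤ p)) ∧
    (∀ s ∈ Ring (ω x), s < t → (∀ s' ∈ Ring (ω x), s' < t → s' ≤ s) →
      (v x t ↔ maj (fun i => v (R i x) s)))

/-- D1: the rings are in their blocks, at most one vertex rings at a time, infinitely many rings at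
each vertex -/
def TaskRings : Prop := ∀ᵐ ω ∂PP 17 law,
  (∀ x k j, 0 < ((ω x).2 k).2 j ∧ ((ω x).2 k).2 j < 1) ∧
  (∀ x k m, ∀ j j', (x, k, j) ≠ ((m, k, j') : V 17 × ℕ × ℕ) →
    ((ω x).2 k).2 j ≠ ((ω m).2 k).2 j') ∧
  (∀ (x : V 17) (n : ℕ), ∃ k, n ≤ k ∧ 1 ≤ ((ω x).2 k).1)

/-- D2: in every block the vertices that ring form finite clusters: `P(N ≥ 1) ≤ 1/32`, and a vertex
at distance `n` of `x` is reached only if the `n` vertices before it on the path ring:
`17 * 16^(n-1) * (1/32)^n → 0` -/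
def TaskCluster : Prop := ∀ᵐ ω ∂PP 17 law, ∀ (k : ℕ) (x : V 17), ∃ B : Finset (V 17), x ∈ B ∧
  ∀ y ∈ B, 1 ≤ ((ω y).2 k).1 → ∀ i, R i y ∈ B

/-- a good labelling -/
structure GoodW (ω : Om 17 Lab) : Prop where
  pos : ∀ x k j, 0 < ((ω x).2 k).2 j ∧ ((ω x).2 k).2 j < 1
  ne : ∀ x k m, ∀ j j', (x, k, j) ≠ ((m, k, j') : V 17 × ℕ × ℕ) →
    ((ω x).2 k).2 j ≠ ((ω m).2 k).2 j'
  inf : ∀ (x : V 17) (n : ℕ), ∃ k, n ≤ k ∧ 1 ≤ ((ω x).2 k).1
  clu : ∀ (k : ℕ) (x : V 17), ∃ B : Finset (V 17), x ∈ B ∧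
    ∀ y ∈ B, 1 ≤ ((ω y).2 k).1 → ∀ i, R i y ∈ B

/-- D3: uniqueness (induction on the block; inside a block on the number of rings of the finite set
`B` before `t`) -/
def TaskUnique : Prop := ∀ (p : ℝ) (ω : Om 17 Lab) (v v' : V 17 → ℝ → Prop), GoodW ω →
  IsSol p ω v → IsSol p ω v' → ∀ x t, v x t ↔ v' x t

/-- D4: existence of a measurable solution. Define `u 0 x t ↔ (ω x).1 ≤ p`,
`u (N+1) x t ↔ maj (u N (R i x) s)` with `s` the last ring before `t` (initial spin if there is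
none), `v x t ↔ ∃ N, ∀ n ≥ N, u n x t`; on `GoodW ω` the depth is finite. -/
def TaskExist : Prop := ∃ v : ℝ → Om 17 Lab → V 17 → ℝ → Prop,
  (∀ p x t, MeasurableSet {ω | v p ω x t}) ∧ ∀ p ω, GoodW ω → IsSol p ω (v p ω)

/-- D5: `v x` is constant on `(s, s']` if there is no ring of `x` in `[s, s')`, only finitely many
rings before each time -/
def TaskConst : Prop := ∀ (p : ℝ) (ω : Om 17 Lab) (v : V 17 → ℝ → Prop), GoodW ω →
  IsSol p ω v → ∀ x : V 17, (∀ t : ℝ, {s | s ∈ Ring (ω x) ∧ s < t}.Finite) ∧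
    ∀ s s' : ℝ, s ≤ s' → (∀ r ∈ Ring (ω x), r < s ∨ s' ≤ r) → (v x s ↔ v x s')

/-- `±1` -/
noncomputable def sg (q : Prop) : ℝ := by classical exact if q then 1 else -1

/-- the rings of `x` before `t` at which the spin of `x` changes -/
def Flip (ω : Om 17 Lab) (v : V 17 → ℝ → Prop) (x : V 17) (t : ℝ) : Set ℝ :=
  {s | s ∈ Ring (ω x) ∧ s < t ∧ ¬ (v x s ↔ maj (fun i => v (R i x) s))}

/-- E1: the energy of the edge `{x, y}`, `y = R i x`, between time `0` and time `t` (deterministic;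
the rings of `x` and `y` before `t` are finitely many and distinct) -/
def TaskEdge : Prop := ∀ (p : ℝ) (ω : Om 17 Lab) (v : V 17 → ℝ → Prop), GoodW ω →
  IsSol p ω v → ∀ (x : V 17) (i : Fin 17) (t : ℝ), 0 ≤ t →
  sg (v x t) * sg (v (R i x) t) - sg (v x 0) * sg (v (R i x) 0) =
    -2 * (∑ᶠ s ∈ Flip ω v x t, sg (v x s) * sg (v (R i x) s)) -
    2 * (∑ᶠ s ∈ Flip ω v (R i x) t, sg (v x s) * sg (v (R i x) s))

/-- E2: at a flip of `x` the sum over the neighbours is at most `-1` -/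
def TaskDrop : Prop := ∀ (v : V 17 → ℝ → Prop) (x : V 17) (s : ℝ),
  ¬ (v x s ↔ maj (fun i => v (R i x) s)) → ∑ i, sg (v x s) * sg (v (R i x) s) ≤ -1

/-- E2a (from D5): the spin at a random time. By left continuity it is the limit of the spins at the
times `(⌈nτ⌉ - 1)/n`, which take countably many values. -/
def TaskMeasAt : Prop := ∀ (p : ℝ) (v : Om 17 Lab → V 17 → ℝ → Prop),
  (∀ x t, MeasurableSet {ω | v ω x t}) → (∀ ω, GoodW ω → IsSol p ω (v ω)) →
  ∀ (x : V 17) (τ : Om 17 Lab → ℝ), Measurable τ →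
    NullMeasurableSet {ω | v ω x (τ ω)} (PP 17 law)

/-- E2b: mean number of rings (`32 T` blocks with mean `1/32`) -/
def TaskRingInt : Prop := ∀ (x : V 17) (T : ℕ),
  ∫⁻ ω, (({s | s ∈ Ring (ω x) ∧ s < (T : ℝ)}.ncard : ℕ) : ENNReal) ∂PP 17 law ≤ T

/-- E2c (from E2a, E2b, D5): integrability. Write the sum over the rings `((k + u_j)/32)`, `k < 32 T`,
`j < N_k`. -/
def TaskIntG : Prop := ∀ (p : ℝ) (v : Om 17 Lab → V 17 → ℝ → Prop),
  (∀ x t, MeasurableSet {ω | v ω x t}) → (∀ ω, GoodW ω → IsSol p ω (v ω)) →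
  ∀ (x y z : V 17) (T : ℕ),
    Integrable (fun ω => ∑ᶠ s ∈ Flip ω (v ω) x T, sg (v ω y s) * sg (v ω z s)) (PP 17 law)

/-- E2d (from S1, D3, T2): `v (act i ω) x t ↔ v ω (L i x) t` for a good `ω` (uniqueness; `act i ω` is
good), hence the two sums of E1 at the root have the same mean -/
def TaskSwap : Prop := ∀ (p : ℝ) (v : Om 17 Lab → V 17 → ℝ → Prop),
  (∀ x t, MeasurableSet {ω | v ω x t}) → (∀ ω, GoodW ω → IsSol p ω (v ω)) →
  (∀ ω, GoodW ω → ∀ i x t, v (act i ω) x t ↔ v ω (L i x) t) ∧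
  ∀ (i : Fin 17) (T : ℕ),
    ∫ ω, ∑ᶠ s ∈ Flip ω (v ω) (R i (o 17)) T, sg (v ω (o 17) s) * sg (v ω (R i (o 17)) s) ∂PP 17 law
    = ∫ ω, ∑ᶠ s ∈ Flip ω (v ω) (o 17) T, sg (v ω (o 17) s) * sg (v ω (R i (o 17)) s) ∂PP 17 law

/-- E3: mean number of flips (from F0, E1, E2, D5, E2c, E2d: integrate E1 at `x = o` and sum over `i`:
`-4 E ∑_i G_i = ∑_i E[..] ≤ 34`, and the number of flips is at most `- ∑_i G_i`) -/
def TaskMeanFlips : Prop := ∀ (p : ℝ) (v : Om 17 Lab → V 17 → ℝ → Prop),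
  (∀ x t, MeasurableSet {ω | v ω x t}) → (∀ ω, GoodW ω → IsSol p ω (v ω)) → ∀ T : ℕ,
  ∫⁻ ω, ((Flip ω (v ω) (o 17) T).ncard : ENNReal) ∂PP 17 law ≤ 9

/-- E4 (from E3): fixation -/
def TaskFix : Prop := ∀ (p : ℝ) (v : Om 17 Lab → V 17 → ℝ → Prop),
  (∀ x t, MeasurableSet {ω | v ω x t}) → (∀ ω, GoodW ω → IsSol p ω (v ω)) →
  ∀ᵐ ω ∂PP 17 law, ∀ x : V 17, ∃ T : ℝ, ∀ t, T ≤ t → (v ω x t ↔ v ω x T)

/-- F0: a.e. labelling is good (from D1, D2) -/
def TaskGoodAE : Prop := ∀ᵐ ω ∂PP 17 law, GoodW ω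

/-- the event that the spin of the root is finally `+` -/
def Plus (v : Om 17 Lab → V 17 → ℝ → Prop) : Set (Om 17 Lab) :=
  {ω | ∃ T : ℝ, ∀ t, T ≤ t → v ω (o 17) t}

/-- F1: the event is measurable up to null sets (left continuity D5: rational times suffice) -/
def TaskPlusMeas : Prop := ∀ (p : ℝ) (v : Om 17 Lab → V 17 → ℝ → Prop),
  (∀ x t, MeasurableSet {ω | v ω x t}) → (∀ ω, GoodW ω → IsSol p ω (v ω)) →
  NullMeasurableSet (Plus v) (PP 17 law)

/-- F2 (from E4, D1, D3, F0): if the root is finally `+` then so are at least nine neighbours, and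
`act i ω ∈ Plus v` iff the neighbour `R i o = L i o` is finally `+` -/
def TaskNine : Prop := ∀ (p : ℝ) (v : Om 17 Lab → V 17 → ℝ → Prop),
  (∀ x t, MeasurableSet {ω | v ω x t}) → (∀ ω, GoodW ω → IsSol p ω (v ω)) →
  ∀ᵐ ω ∂PP 17 law, ω ∈ Plus v → 9 ≤ {i : Fin 17 | act i ω ∈ Plus v}.ncard

/-- F3: `θ(0) = 0` and `θ(1) = 1` (constant solutions and uniqueness) -/
def TaskEnds : Prop := ∀ (v : Om 17 Lab → V 17 → ℝ → Prop),
  ((∀ ω, GoodW ω → IsSol 0 ω (v ω)) → (PP 17 law).real (Plus v) = 0) ∧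
  ((∀ ω, GoodW ω → IsSol 1 ω (v ω)) → (PP 17 law).real (Plus v) = 1)

end Pool.Agent.Q39.MD17
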