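import Pool.Agent.Q39.MD17.Stmts

set_option autoImplicit false

namespace Pool.Agent.Q39.MD17

open MeasureTheory ProbabilityTheory Filter Topology Set

theorem taskPlusMeas (hC : TaskConst) (hG : TaskGoodAE) : TaskPlusMeas := by
  intro p v hm hs
  set A : Set (Om 17 Lab) := ⋃ N : ℕ, ⋂ q : ℚ, {ω | (N : ℝ) ≤ (q : ℝ) → v ω (o 17) (q : ℝ)} with hAdef
  have hA : MeasurableSet A := by
    refine MeasurableSet.iUnion fun N => MeasurableSet.iInter fun q => ?_
    by_cases h : (N : ℝ) ≤ (q : ℝ)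
    · simpa [h] using hm (o 17) (q : ℝ)
    · simp [h]
  have hEq : A =ᵐ[PP 17 law] Plus v := by
    have hG' : ∀ᵐ ω ∂PP 17 law, GoodW ω := hG
    filter_upwards [hG'] with ω hω
    apply propext
    constructor
    · intro h
      obtain ⟨N, hN⟩ := mem_iUnion.1 h
      refine ⟨N + 1, fun t ht => ?_⟩
      obtain ⟨hfin, hconst⟩ := hC p ω (v ω) hω (hs ω hω) (o 17)
      obtain ⟨m, hmem, hmax⟩ := Set.exists_max_image (insert (N : ℝ) {s | s ∈ Ring (ω (o 17)) ∧ s < t})
        id ((hfin t).insert _) ⟨_, Set.mem_insert _ _⟩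
      have hmt : m < t := by
        rcases hmem with rfl | h2
        · linarith
        · exact h2.2
      obtain ⟨q, hq1, hq2⟩ := exists_rat_btwn hmt
      have hNq : (N : ℝ) ≤ (q : ℝ) := (hmax (N : ℝ) (Set.mem_insert _ _)).trans hq1.le
      have hc := hconst (q : ℝ) t hq2.le (fun r hr => by
        by_cases hrt : r < t
        · left
          exact lt_of_le_of_lt (hmax r (Set.mem_insert_of_mem _ ⟨hr, hrt⟩)) hq1
        · right
          exact not_lt.1 hrt)
      exact hc.1 (mem_iInter.1 hN q hNq)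
    · rintro ⟨T, hT⟩
      refine mem_iUnion.2 ⟨⌈T⌉₊, mem_iInter.2 fun q => ?_⟩
      intro hq
      exact hT _ ((Nat.le_ceil T).trans hq)
  exact hA.nullMeasurableSet.congr hEq

end Pool.Agent.Q39.MD17
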