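import Mathlib
import Pool.Agent.Q39.MD17.Stmts

set_option autoImplicit false

namespace Pool.Agent.Q39.MD17

open MeasureTheory

lemma taskPres_pre {d : ℕ} (i : Fin d) (w : List (Fin d)) (h : w.IsChain (· ≠ ·)) :
    preList i (preList i w) = w := by
  cases w with
  | nil => simp [preList]
  | cons j w =>
    by_cases hj : j = i
    · subst hj
      have e : preList j (j :: w) = w := by simp [preList]
      rw [e]
      cases w with
      | nil => simp [preList]
      | cons k w =>
        have hk : j ≠ k := by
          rw [List.isChain_cons_cons] at h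
          exact h.1
        simp [preList, Ne.symm hk]
    · have e : preList i (j :: w) = i :: j :: w := by simp [preList, hj]
      rw [e]
      simp [preList]

lemma taskPres_LL {d : ℕ} (i : Fin d) (x : V d) : L i (L i x) = x :=
  Subtype.ext (taskPres_pre i x.1 x.2)

theorem taskPres : TaskPres := by
  intro d E _ ν _ i
  let e : V d ≃ V d := ⟨L i, L i, taskPres_LL i, taskPres_LL i⟩
  have h := Measure.infinitePi_map_piCongrLeft (X := fun _ : V d => E) (μ := fun _ => ν) e
  have e1 : (act i : Om d E → Om d E) = MeasurableEquiv.piCongrLeft (fun _ : V d => E) e := by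
    funext ω x
    obtain ⟨y, rfl⟩ := e.surjective x
    have e2 : (MeasurableEquiv.piCongrLeft (fun _ : V d => E) e) ω (e y) = ω y :=
      Equiv.piCongrLeft_apply_apply (fun _ : V d => E) e ω y
    rw [e2]
    show ω (L i (L i y)) = ω y
    rw [taskPres_LL]
  refine ⟨measurable_pi_lambda _ fun x => measurable_pi_apply _, ?_⟩
  rw [e1]
  exact h

end Pool.Agent.Q39.MD17
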