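import Pool.Agent.Q39.MD17.Stmts

set_option autoImplicit false

/-! Proof of `TaskRingInt` (helper95). -/

namespace Pool.Agent.Q39.MD17

open MeasureTheory ProbabilityTheory Filter Topology Finset
open scoped BigOperators

private theorem poisMean95 (r : NNReal) :
    ∫⁻ n, (n : ENNReal) ∂(poissonMeasure r) = r := by
  rw [poissonMeasure, lintegral_sum_measure]
  have h1 : ∀ n : ℕ, ∫⁻ k, (k : ENNReal) ∂(ENNReal.ofReal (Real.exp (-r) * r ^ n / (n.factorial : ℝ)) •
      Measure.dirac n) = ENNReal.ofReal (Real.exp (-r) * r ^ n / (n.factorial : ℝ) * n) := by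
    intro n
    rw [lintegral_smul_measure, lintegral_dirac, smul_eq_mul, ENNReal.ofReal_mul (by positivity),
      ENNReal.ofReal_natCast]
  rw [tsum_congr h1]
  have h2 : HasSum (fun n : ℕ => Real.exp (-r) * r ^ n / (n.factorial : ℝ) * n) (r : ℝ) := by
    rw [← hasSum_nat_add_iff' 1]
    have h3 := (hasSum_one_poissonMeasure r).mul_left (r : ℝ)
    simp only [Finset.range_one, Finset.sum_singleton, Nat.cast_zero, mul_zero, sub_zero, mul_one] at h3 ⊢
    have h4 : (fun n : ℕ => Real.exp (-r) * (r : ℝ) ^ (n + 1) / ((n + 1).factorial : ℝ) * ((n + 1 : ℕ) : ℝ)) =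
        fun n : ℕ => (r : ℝ) * (Real.exp (-r) * r ^ n / (n.factorial : ℝ)) := by
      funext n
      rw [Nat.factorial_succ, Nat.cast_mul]
      have : ((n + 1 : ℕ) : ℝ) ≠ 0 := by positivity
      have h5 : ((n.factorial : ℕ) : ℝ) ≠ 0 := by positivity
      field_simp
      ring
    rw [h4]
    exact h3
  rw [← ENNReal.ofReal_tsum_of_nonneg (fun n => by positivity) h2.summable, h2.tsum_eq,
    ENNReal.ofReal_coe_nnreal]

private theorem mpBlock95 (x : V 17) (k : ℕ) :
    MeasurePreserving (fun ω : Om 17 Lab => (ω x).2 k) (PP 17 law)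
      ((poissonMeasure (1 / 32)).prod (Measure.infinitePi (fun _ : ℕ => unif))) := by
  have m1 : MeasurePreserving (fun ω : Om 17 Lab => ω x) (PP 17 law) law :=
    measurePreserving_eval_infinitePi (fun _ : V 17 => law) x
  have m2 : MeasurePreserving (Prod.snd : Lab → (ℕ → ℕ × (ℕ → ℝ))) law
      (Measure.infinitePi (fun _ : ℕ =>
        (poissonMeasure (1 / 32)).prod (Measure.infinitePi (fun _ : ℕ => unif)))) :=
    measurePreserving_snd
  have m3 := measurePreserving_eval_infinitePi (fun _ : ℕ =>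
        (poissonMeasure (1 / 32)).prod (Measure.infinitePi (fun _ : ℕ => unif))) k
  exact (m3.comp m2).comp m1

private theorem mpN95 (x : V 17) (k : ℕ) :
    MeasurePreserving (fun ω : Om 17 Lab => ((ω x).2 k).1) (PP 17 law) (poissonMeasure (1 / 32)) :=
  measurePreserving_fst.comp (mpBlock95 x k)

private theorem mpU95 (x : V 17) (k j : ℕ) :
    MeasurePreserving (fun ω : Om 17 Lab => ((ω x).2 k).2 j) (PP 17 law) unif := by
  have m4 : MeasurePreserving (Prod.snd : ℕ × (ℕ → ℝ) → (ℕ → ℝ))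
      ((poissonMeasure (1 / 32)).prod (Measure.infinitePi (fun _ : ℕ => unif)))
      (Measure.infinitePi (fun _ : ℕ => unif)) := measurePreserving_snd
  have m5 := measurePreserving_eval_infinitePi (fun _ : ℕ => unif) j
  exact (m5.comp m4).comp (mpBlock95 x k)

theorem taskRingInt : TaskRingInt := by
  intro x T
  classical
  have hae : ∀ᵐ ω ∂PP 17 law, ∀ k j, 0 ≤ ((ω x).2 k).2 j := by
    rw [ae_all_iff]; intro k
    rw [ae_all_iff]; intro j
    have h0 : ∀ᵐ u ∂unif, (0 : ℝ) ≤ u := by
      filter_upwards [ae_restrict_mem (measurableSet_Icc (a := (0 : ℝ)) (b := 1))] with u hu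
      exact hu.1
    exact (mpU95 x k j).quasiMeasurePreserving.ae h0
  have hle : ∀ᵐ ω ∂PP 17 law,
      (({s | s ∈ Ring (ω x) ∧ s < (T : ℝ)}.ncard : ℕ) : ENNReal) ≤
        ∑ k ∈ Finset.range (32 * T), (((ω x).2 k).1 : ENNReal) := by
    filter_upwards [hae] with ω hω
    have hsub : {s | s ∈ Ring (ω x) ∧ s < (T : ℝ)} ⊆
        ((Finset.range (32 * T)).biUnion (fun k => (Finset.range ((ω x).2 k).1).image
          (fun j => ((k : ℝ) + ((ω x).2 k).2 j) / 32)) : Finset ℝ) := by
      rintro s ⟨⟨k, j, hj, rfl⟩, hs⟩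
      rw [Finset.mem_coe, Finset.mem_biUnion]
      refine ⟨k, ?_, Finset.mem_image.2 ⟨j, Finset.mem_range.2 hj, rfl⟩⟩
      rw [Finset.mem_range]
      have h1 := hω k j
      rw [div_lt_iff₀ (by norm_num)] at hs
      have h2 : (k : ℝ) < ((32 * T : ℕ) : ℝ) := by push_cast; linarith
      exact_mod_cast h2
    have h1 := Set.ncard_le_ncard hsub (Finset.finite_toSet _)
    rw [Set.ncard_coe_finset] at h1
    have h2 := h1.trans (Finset.card_biUnion_le.trans
      (Finset.sum_le_sum fun k _ => (Finset.card_image_le).trans (Finset.card_range _).le))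
    have h3 : (({s | s ∈ Ring (ω x) ∧ s < (T : ℝ)}.ncard : ℕ) : ENNReal) ≤
        ((∑ k ∈ Finset.range (32 * T), ((ω x).2 k).1 : ℕ) : ENNReal) := by
      exact_mod_cast h2
    rwa [Nat.cast_sum] at h3
  refine (lintegral_mono_ae hle).trans ?_
  rw [lintegral_finsetSum]
  · have h4 : ∀ k ∈ Finset.range (32 * T),
        ∫⁻ ω, (((ω x).2 k).1 : ENNReal) ∂PP 17 law = ((1 / 32 : NNReal) : ENNReal) := by
      intro k _
      rw [← poisMean95 (1 / 32)]
      exact (mpN95 x k).lintegral_comp (measurable_of_countable (fun n : ℕ => (n : ENNReal)))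
    rw [Finset.sum_congr rfl h4, Finset.sum_const, Finset.card_range, nsmul_eq_mul]
    have h5 : (((32 * T : ℕ) : NNReal) * (1 / 32 : NNReal)) = (T : NNReal) := by
      push_cast
      field_simp
    have h6 : (((32 * T : ℕ) : ENNReal) * ((1 / 32 : NNReal) : ENNReal)) = (T : ENNReal) := by
      rw [← ENNReal.coe_natCast (32 * T), ← ENNReal.coe_mul, h5, ENNReal.coe_natCast]
    rw [h6]
  · intro k _
    exact (measurable_of_countable (fun n : ℕ => (n : ENNReal))).comp (mpN95 x k).measurable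

end Pool.Agent.Q39.MD17
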