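import Pool.Agent.Q39.MD17.Stmts

set_option autoImplicit false
set_option linter.all false

namespace Pool.Agent.Q39.MD17

open MeasureTheory ProbabilityTheory Filter Topology Finset
open scoped BigOperators

private lemma TaskSpec_ind {Ω : Type} [MeasurableSpace Ω] (P : Measure Ω) [IsProbabilityMeasure P]
    (A : Set Ω) (hA : MeasurableSet A) :
    Integrable (A.indicator (fun _ => (1 : ℝ))) P ∧ ∫ ω, A.indicator (fun _ => (1 : ℝ)) ω ∂P = P.real A := by
  refine ⟨(integrable_const (1 : ℝ)).indicator hA, ?_⟩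
  rw [integral_indicator hA]
  simp

private lemma TaskSpec_cyl (h1 : TaskPres) (h2 : TaskSpecCyl) (E : Type) [MeasurableSpace E]
    (ν : Measure E) [IsProbabilityMeasure ν] (A : Set (Om 17 E)) (B : Finset (V 17))
    (hA : MeasurableSet A)
    (hB : ∀ ω ω' : Om 17 E, (∀ x ∈ B, ω x = ω' x) → (ω ∈ A ↔ ω' ∈ A)) :
    ∑ i : Fin 17, (PP 17 ν).real (A ∩ act i ⁻¹' A) ≤
      17 * (PP 17 ν).real A ^ 2 + 8 * (PP 17 ν).real A * (1 - (PP 17 ν).real A) := by
  classical
  set P := PP 17 ν with hP
  set p := P.real A with hp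
  have hp0 : 0 ≤ p := measureReal_nonneg
  have hp1 : p ≤ 1 := measureReal_le_one
  have hact : ∀ i : Fin 17, Measurable (act i : Om 17 E → Om 17 E) := fun i => (h1 17 E ν i).measurable
  have hpre : ∀ i : Fin 17, P.real (act i ⁻¹' A) = p := by
    intro i
    rw [hp, measureReal_def, measureReal_def, (h1 17 E ν i).measure_preimage hA.nullMeasurableSet]
  let J : Om 17 E → ℝ := A.indicator (fun _ => (1 : ℝ))
  have hJ := TaskSpec_ind P A hA
  let f : Om 17 E → ℝ := fun ω => J ω - p
  have hfm : Measurable f := (measurable_const.indicator hA).sub_const p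
  have hJv : ∀ ω, J ω = 0 ∨ J ω = 1 := by
    intro ω
    by_cases h : ω ∈ A
    · right; simp [J, h]
    · left; simp [J, h]
  have hfb : ∀ ω, |f ω| ≤ 1 := by
    intro ω
    rw [abs_le]
    simp only [f]
    rcases hJv ω with h | h <;> rw [h] <;> constructor <;> linarith
  have hdep : Dep B f := by
    intro ω ω' h
    have := hB ω ω' h
    by_cases h' : ω ∈ A
    · have h'' := this.1 h'
      simp [f, J, h', h'']
    · have h'' : ω' ∉ A := fun h3 => h' (this.2 h3)
      simp [f, J, h', h'']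
  have hf0 : ∫ ω, f ω ∂P = 0 := by
    simp only [f]
    rw [integral_sub hJ.1 (integrable_const p)]
    rw [hJ.2]
    simp [hp]
  have key := h2 E ν B f 1 hfm hfb hdep hf0
  -- square
  have hsq : ∫ ω, f ω ^ 2 ∂P = p - p ^ 2 := by
    have e : ∀ ω, f ω ^ 2 = (1 - 2 * p) * J ω + p ^ 2 := by
      intro ω
      simp only [f]
      rcases hJv ω with h | h <;> rw [h] <;> ring
    calc ∫ ω, f ω ^ 2 ∂P = ∫ ω, ((1 - 2 * p) * J ω + p ^ 2) ∂P := by
          exact integral_congr_ae (Filter.Eventually.of_forall e)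
      _ = (1 - 2 * p) * p + p ^ 2 := by
          rw [integral_add (hJ.1.const_mul _) (integrable_const _), integral_const_mul, hJ.2]
          simp [hp]
      _ = p - p ^ 2 := by ring
  have hcross : ∀ i : Fin 17, ∫ ω, f ω * f (act i ω) ∂P = P.real (A ∩ act i ⁻¹' A) - p ^ 2 := by
    intro i
    have hmi : MeasurableSet (act i ⁻¹' A) := hact i hA
    have h3 := TaskSpec_ind P (act i ⁻¹' A) hmi
    have h4 := TaskSpec_ind P (A ∩ act i ⁻¹' A) (hA.inter hmi)
    have e : ∀ ω, f ω * f (act i ω) = (A ∩ act i ⁻¹' A).indicator (fun _ => (1 : ℝ)) ω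
        - p * J ω - p * (act i ⁻¹' A).indicator (fun _ => (1 : ℝ)) ω + p ^ 2 := by
      intro ω
      by_cases ha : ω ∈ A <;> by_cases hb : act i ω ∈ A <;>
        simp [f, J, ha, hb, Set.mem_preimage] <;> ring
    calc ∫ ω, f ω * f (act i ω) ∂P
        = ∫ ω, ((A ∩ act i ⁻¹' A).indicator (fun _ => (1 : ℝ)) ω
        - p * J ω - p * (act i ⁻¹' A).indicator (fun _ => (1 : ℝ)) ω + p ^ 2) ∂P :=
          integral_congr_ae (Filter.Eventually.of_forall e)
      _ = P.real (A ∩ act i ⁻¹' A) - p * p - p * p + p ^ 2 := by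
          have i0 : Integrable (fun ω => p * J ω) P := hJ.1.const_mul _
          have i1 : Integrable (fun ω => (A ∩ act i ⁻¹' A).indicator (fun _ => (1 : ℝ)) ω - p * J ω) P :=
            h4.1.sub i0
          have i2 : Integrable (fun ω => p * (act i ⁻¹' A).indicator (fun _ => (1 : ℝ)) ω) P :=
            h3.1.const_mul _
          have i3 : Integrable (fun ω => (A ∩ act i ⁻¹' A).indicator (fun _ => (1 : ℝ)) ω - p * J ω
            - p * (act i ⁻¹' A).indicator (fun _ => (1 : ℝ)) ω) P := i1.sub i2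
          rw [integral_add i3 (integrable_const _), integral_sub i1 i2,
            integral_sub h4.1 i0, integral_const_mul, integral_const_mul, hJ.2,
            h3.2, h4.2, hpre i]
          simp [hp]
      _ = P.real (A ∩ act i ⁻¹' A) - p ^ 2 := by ring
  have hint : ∀ i : Fin 17, Integrable (fun ω => f ω * f (act i ω)) P := by
    intro i
    refine Integrable.of_bound (hfm.mul (hfm.comp (hact i))).aestronglyMeasurable 1 ?_
    refine Filter.Eventually.of_forall fun ω => ?_
    rw [Real.norm_eq_abs, abs_mul]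
    calc |f ω| * |f (act i ω)| ≤ 1 * 1 := mul_le_mul (hfb _) (hfb _) (abs_nonneg _) zero_le_one
      _ = 1 := one_mul 1
  have hM : ∫ ω, f ω * MM f ω ∂P = ∑ i : Fin 17, P.real (A ∩ act i ⁻¹' A) - 17 * p ^ 2 := by
    calc ∫ ω, f ω * MM f ω ∂P = ∫ ω, ∑ i : Fin 17, f ω * f (act i ω) ∂P := by
          refine integral_congr_ae (Filter.Eventually.of_forall fun ω => ?_)
          simp only [MM, Finset.mul_sum]
      _ = ∑ i : Fin 17, ∫ ω, f ω * f (act i ω) ∂P := integral_finset_sum _ fun i _ => hint i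
      _ = ∑ i : Fin 17, (P.real (A ∩ act i ⁻¹' A) - p ^ 2) := Finset.sum_congr rfl fun i _ => hcross i
      _ = ∑ i : Fin 17, P.real (A ∩ act i ⁻¹' A) - 17 * p ^ 2 := by
          rw [Finset.sum_sub_distrib]
          simp
  rw [← hP] at key
  rw [hM, hsq] at key
  nlinarith [key]

theorem taskSpec (h1 : TaskPres) (h2 : TaskSpecCyl) (h3 : TaskApprox) : TaskSpec := by
  intro E _ ν _ A hA
  classical
  set P := PP 17 ν with hP
  set p := P.real A with hp
  have hp0 : 0 ≤ p := measureReal_nonneg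
  have hp1 : p ≤ 1 := measureReal_le_one
  refine le_of_forall_pos_le_add fun δ hδ => ?_
  obtain ⟨A', B, hA', hB, hε⟩ := h3 E ν A (δ / 60) hA (by positivity)
  rw [← hP] at hε
  have hc := TaskSpec_cyl h1 h2 E ν A' B hA' hB
  rw [← hP] at hc
  set q := P.real A' with hq
  have hq0 : 0 ≤ q := measureReal_nonneg
  have hq1 : q ≤ 1 := measureReal_le_one
  set ε := δ / 60 with hεd
  have hd1 : P.real (A \ A') ≤ ε :=
    (measureReal_mono (fun x hx => Or.inl hx)).trans hε.le
  have hd2 : P.real (A' \ A) ≤ ε :=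
    (measureReal_mono (fun x hx => Or.inr hx)).trans hε.le
  have hpq : q ≤ p + ε := by
    calc q ≤ P.real (A ∪ (A' \ A)) := measureReal_mono (fun x hx => by
            by_cases h : x ∈ A
            · exact Or.inl h
            · exact Or.inr ⟨hx, h⟩)
      _ ≤ P.real A + P.real (A' \ A) := measureReal_union_le _ _
      _ ≤ p + ε := by linarith
  have hi : ∀ i : Fin 17, P.real (A ∩ act i ⁻¹' A) ≤ P.real (A' ∩ act i ⁻¹' A') + 2 * ε := by
    intro i
    have hm : MeasurableSet (A \ A') := hA.diff hA'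
    have hpre : P.real (act i ⁻¹' (A \ A')) = P.real (A \ A') := by
      rw [measureReal_def, measureReal_def, (h1 17 E ν i).measure_preimage hm.nullMeasurableSet]
    calc P.real (A ∩ act i ⁻¹' A)
        ≤ P.real ((A' ∩ act i ⁻¹' A') ∪ ((A \ A') ∪ act i ⁻¹' (A \ A'))) :=
          measureReal_mono (fun x hx => by
            by_cases h : x ∈ A'
            · by_cases h' : act i x ∈ A'
              · exact Or.inl ⟨h, h'⟩
              · exact Or.inr (Or.inr ⟨hx.2, h'⟩)
            · exact Or.inr (Or.inl ⟨hx.1, h⟩))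
      _ ≤ P.real (A' ∩ act i ⁻¹' A') + P.real ((A \ A') ∪ act i ⁻¹' (A \ A')) :=
          measureReal_union_le _ _
      _ ≤ P.real (A' ∩ act i ⁻¹' A') + (P.real (A \ A') + P.real (act i ⁻¹' (A \ A'))) := by
          gcongr
          exact measureReal_union_le _ _
      _ ≤ P.real (A' ∩ act i ⁻¹' A') + 2 * ε := by rw [hpre]; linarith
  have hsum : ∑ i : Fin 17, P.real (A ∩ act i ⁻¹' A) ≤
      ∑ i : Fin 17, P.real (A' ∩ act i ⁻¹' A') + 34 * ε := by
    calc ∑ i : Fin 17, P.real (A ∩ act i ⁻¹' A)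
        ≤ ∑ i : Fin 17, (P.real (A' ∩ act i ⁻¹' A') + 2 * ε) := Finset.sum_le_sum fun i _ => hi i
      _ = _ := by
          rw [Finset.sum_add_distrib]
          simp
          ring
  have hε0 : 0 < ε := by positivity
  have hδe : δ = 60 * ε := by rw [hεd]; ring
  have hmono : 17 * q ^ 2 + 8 * q * (1 - q) ≤ 17 * p ^ 2 + 8 * p * (1 - p) + 26 * ε := by
    nlinarith [mul_nonneg hq0 hε0.le, mul_nonneg hp0 hε0.le, mul_nonneg (sub_nonneg.2 hpq) hq0,
      mul_nonneg (sub_nonneg.2 hpq) hp0, mul_nonneg (sub_nonneg.2 hq1) hε0.le,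
      mul_nonneg (sub_nonneg.2 hp1) hε0.le]
  linarith

end Pool.Agent.Q39.MD17
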