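import Pool.Agent.Q39.MD17.Stmts

namespace Pool.Agent.Q39.MD17

open MeasureTheory ProbabilityTheory Filter Topology Finset
open scoped BigOperators

theorem SpecCyl_meas_act {d : ℕ} {E : Type} [MeasurableSpace E] (i : Fin d) :
    Measurable (act i : Om d E → Om d E) := by
  refine measurable_pi_iff.2 fun x => ?_
  exact measurable_pi_apply (L i x)

theorem SpecCyl_meas_MM {d : ℕ} {E : Type} [MeasurableSpace E] {f : Om d E → ℝ}
    (hf : Measurable f) : Measurable (MM f) := by
  unfold MM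
  exact Finset.measurable_sum _ fun i _ => hf.comp (SpecCyl_meas_act i)

theorem SpecCyl_bound {E : Type} {f : Om 17 E → ℝ} {C : ℝ} (hC : ∀ ω, |f ω| ≤ C) (ω : Om 17 E) :
    |MM f ω| ≤ 17 * C := by
  unfold MM
  calc |∑ i : Fin 17, f (act i ω)| ≤ ∑ i : Fin 17, |f (act i ω)| := Finset.abs_sum_le_sum_abs _ _
    _ ≤ ∑ _i : Fin 17, C := Finset.sum_le_sum fun i _ => hC _
    _ = 17 * C := by simp

theorem taskSpecCyl (hP : TaskCylPow) (hS : TaskSym) (hL : TaskLogConv) : TaskSpecCyl := by
  intro E _ ν _ B f C hf hC hDep h0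
  have hb := hL (fun n => ∫ ω, (MM^[n] f ω) ^ 2 ∂PP 17 ν)
    (fun n => integral_nonneg fun ω => sq_nonneg _) (fun n => hS E ν f C hf hC n)
    (hP E ν B f C hf hC hDep h0)
  simp only [Function.iterate_one, Function.iterate_zero, id_eq] at hb
  have hC0 : 0 ≤ C := (abs_nonneg _).trans (hC (fun _ => Classical.choice (by
    by_contra hE
    rw [not_nonempty_iff] at hE
    have h1 := measure_univ (μ := ν)
    rw [Set.eq_empty_of_isEmpty (Set.univ : Set E), measure_empty] at h1
    exact zero_ne_one h1)))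
  have hg := SpecCyl_meas_MM hf
  have i1 : Integrable (fun ω => f ω ^ 2) (PP 17 ν) := by
    refine Integrable.of_bound (hf.pow_const 2).aestronglyMeasurable (C ^ 2)
      (Eventually.of_forall fun ω => ?_)
    rw [Real.norm_eq_abs, abs_pow]
    exact pow_le_pow_left₀ (abs_nonneg _) (hC ω) 2
  have i2 : Integrable (fun ω => MM f ω ^ 2) (PP 17 ν) := by
    refine Integrable.of_bound (hg.pow_const 2).aestronglyMeasurable ((17 * C) ^ 2)
      (Eventually.of_forall fun ω => ?_)
    rw [Real.norm_eq_abs, abs_pow]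
    exact pow_le_pow_left₀ (abs_nonneg _) (SpecCyl_bound hC ω) 2
  have i3 : Integrable (fun ω => f ω * MM f ω) (PP 17 ν) := by
    refine Integrable.of_bound (hf.mul hg).aestronglyMeasurable (C * (17 * C))
      (Eventually.of_forall fun ω => ?_)
    rw [Real.norm_eq_abs, abs_mul]
    exact mul_le_mul (hC ω) (SpecCyl_bound hC ω) (abs_nonneg _) hC0
  have h3 : ∫ ω, 16 * (f ω * MM f ω) ∂PP 17 ν ≤ ∫ ω, (64 * f ω ^ 2 + MM f ω ^ 2) ∂PP 17 ν := by
    refine integral_mono (i3.const_mul 16) ((i1.const_mul 64).add i2) fun ω => ?_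
    nlinarith [sq_nonneg (8 * f ω - MM f ω)]
  rw [integral_const_mul, integral_add (i1.const_mul 64) i2, integral_const_mul] at h3
  linarith

end Pool.Agent.Q39.MD17
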