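import Pool.Agent.Q39.MD17.Stmts

/-!
# E2d: the dynamics commutes with the automorphisms `L i`
-/

namespace Pool.Agent.Q39.MD17

open MeasureTheory ProbabilityTheory Filter Topology Finset

theorem taskSwap_L_inj (hInvol : TaskInvol) (i : Fin 17) : Function.Injective (L (d := 17) i) := by
  intro x y h
  have h1 := congrArg (L i) h
  rwa [(hInvol 17 i x).1, (hInvol 17 i y).1] at h1

theorem taskSwap_Lo (i : Fin 17) : L i (o 17) = R i (o 17) := by
  apply Subtype.ext
  simp [L, R, o, preList]

theorem taskSwap_good (hLR : TaskLR) (hInvol : TaskInvol) (i : Fin 17) {ω : Om 17 Lab}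
    (h : GoodW ω) : GoodW (act i ω) := by
  refine ⟨fun x k j => h.pos (L i x) k j, ?_, fun x n => h.inf (L i x) n, ?_⟩
  · intro x k m j j' hne
    refine h.ne (L i x) k (L i m) j j' ?_
    intro he
    apply hne
    simp only [Prod.mk.injEq] at he ⊢
    exact ⟨taskSwap_L_inj hInvol i he.1, he.2⟩
  · intro k x
    obtain ⟨B, hxB, hB⟩ := h.clu k (L i x)
    refine ⟨B.image (L i), ?_, ?_⟩
    · rw [Finset.mem_image]
      exact ⟨L i x, hxB, (hInvol 17 i x).1⟩
    · intro y hy h1 j
      rw [Finset.mem_image] at hy ⊢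
      obtain ⟨z, hz, rfl⟩ := hy
      have h2 : 1 ≤ ((ω z).2 k).1 := by
        have h3 : act i ω (L i z) = ω z := by
          show ω (L i (L i z)) = ω z
          rw [(hInvol 17 i z).1]
        rwa [h3] at h1
      exact ⟨R j z, hB z hz h2 j, hLR 17 i j z⟩

theorem taskSwap_sol (hLR : TaskLR) (i : Fin 17) {p : ℝ} {ω : Om 17 Lab}
    {v : V 17 → ℝ → Prop} (h : IsSol p ω v) : IsSol p (act i ω) (fun x t => v (L i x) t) := by
  intro x t
  refine ⟨fun h1 => (h (L i x) t).1 h1, fun s hs hst h2 => ?_⟩
  have h3 := (h (L i x) t).2 s hs hst h2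
  have h4 : (fun j => v (L i (R j x)) s) = fun j => v (R j (L i x)) s := by
    funext j
    rw [hLR 17 i j x]
  show v (L i x) t ↔ maj (fun j => v (L i (R j x)) s)
  rw [h4]
  exact h3

theorem taskSwap (hPres : TaskPres) (hUnique : TaskUnique) (hLR : TaskLR) (hInvol : TaskInvol)
    (hGood : TaskGoodAE) : TaskSwap := by
  intro p v _ hsol
  have part1 : ∀ ω, GoodW ω → ∀ i x t, v (act i ω) x t ↔ v ω (L i x) t := by
    intro ω hω i x t
    have hg := taskSwap_good hLR hInvol i hω
    exact hUnique p (act i ω) (v (act i ω)) (fun x t => v ω (L i x) t) hg (hsol _ hg)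
      (taskSwap_sol hLR i (hsol ω hω)) x t
  refine ⟨part1, fun i T => ?_⟩
  have hact : ∀ ω : Om 17 Lab, act i (act i ω) = ω := by
    intro ω
    funext x
    show ω (L i (L i x)) = ω x
    rw [(hInvol 17 i x).1]
  have hpres := hPres 17 Lab law i
  let e : Om 17 Lab ≃ᵐ Om 17 Lab :=
    { toFun := act i
      invFun := act i
      left_inv := hact
      right_inv := hact
      measurable_toFun := hpres.measurable
      measurable_invFun := hpres.measurable }
  have hpe : MeasurePreserving e (PP 17 law) (PP 17 law) := hpres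
  have h1 := hpe.integral_comp' (g := fun ω => ∑ᶠ s ∈ Flip ω (v ω) (o 17) T,
    sg (v ω (o 17) s) * sg (v ω (R i (o 17)) s))
  rw [← h1]
  apply integral_congr_ae
  filter_upwards [hGood] with ω hω
  have h2 := part1 ω hω i
  have hv : v (act i ω) = fun x t => v ω (L i x) t := by
    funext x t
    exact propext (h2 x t)
  have he : e ω = act i ω := rfl
  rw [he, hv]
  have hLR' : L i (R i (o 17)) = o 17 := by
    rw [hLR 17 i i (o 17), taskSwap_Lo, (hInvol 17 i (o 17)).2]
  have hF : Flip (act i ω) (fun x t => v ω (L i x) t) (o 17) T = Flip ω (v ω) (R i (o 17)) T := by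
    unfold Flip
    have h4 : ∀ s : ℝ, (fun j => v ω (L i (R j (o 17))) s) = fun j => v ω (R j (R i (o 17))) s := by
      intro s
      funext j
      rw [hLR 17 i j (o 17), taskSwap_Lo]
    have h5 : act i ω (o 17) = ω (R i (o 17)) := by
      show ω (L i (o 17)) = _
      rw [taskSwap_Lo]
    simp only [h4, h5, taskSwap_Lo]
  rw [hF]
  simp only [taskSwap_Lo, hLR']
  refine finsum_congr fun s => finsum_congr fun _ => ?_
  rw [mul_comm]

end Pool.Agent.Q39.MD17
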