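import Pool.Agent.Q39.MD17.Stmts

namespace Pool.Agent.Q39.MD17

open MeasureTheory ProbabilityTheory Filter Topology Finset
open scoped BigOperators

theorem sym_meas {d : ℕ} {E : Type} [MeasurableSpace E] {g : Om d E → ℝ}
    (hact : ∀ i : Fin d, Measurable (act (E := E) i)) (hg : Measurable g) : Measurable (MM g) := by
  unfold MM
  exact Finset.measurable_sum _ fun i _ => hg.comp (hact i)

theorem sym_bdd {E : Type} {g : Om 17 E → ℝ} {C : ℝ}
    (hg : ∀ ω, |g ω| ≤ C) : ∀ ω, |MM g ω| ≤ 17 * C := by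
  intro ω
  unfold MM
  calc |∑ i : Fin 17, g (act i ω)| ≤ ∑ i : Fin 17, |g (act i ω)| := Finset.abs_sum_le_sum_abs _ _
    _ ≤ ∑ _i : Fin 17, C := Finset.sum_le_sum fun i _ => hg _
    _ = 17 * C := by simp

theorem sym_int {Ω : Type} [MeasurableSpace Ω] {P : Measure Ω} [IsProbabilityMeasure P]
    {g : Ω → ℝ} {C : ℝ} (hg : Measurable g) (hb : ∀ ω, |g ω| ≤ C) : Integrable g P :=
  Integrable.of_bound hg.aestronglyMeasurable C (Filter.Eventually.of_forall fun ω => by
    rw [Real.norm_eq_abs]; exact hb ω)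

theorem sym_mul_bdd {Ω : Type} {g k : Ω → ℝ} {C D : ℝ} (hg : ∀ ω, |g ω| ≤ C)
    (hk : ∀ ω, |k ω| ≤ D) : ∀ ω, |g ω * k ω| ≤ C * D := by
  intro ω
  rw [abs_mul]
  exact mul_le_mul (hg ω) (hk ω) (abs_nonneg _) (le_trans (abs_nonneg _) (hg ω))

theorem sym_cs {Ω : Type} [MeasurableSpace Ω] {P : Measure Ω} [IsProbabilityMeasure P]
    {g k : Ω → ℝ} {C D : ℝ} (hg : Measurable g) (hk : Measurable k) (hgb : ∀ ω, |g ω| ≤ C)
    (hkb : ∀ ω, |k ω| ≤ D) :
    (∫ ω, g ω * k ω ∂P) ^ 2 ≤ (∫ ω, g ω ^ 2 ∂P) * ∫ ω, k ω ^ 2 ∂P := by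
  have i1 : Integrable (fun ω => g ω ^ 2) P := by
    have := sym_int (P := P) (hg.mul hg) (sym_mul_bdd hgb hgb)
    refine this.congr (Filter.Eventually.of_forall fun ω => ?_)
    simp [pow_two]
  have i2 : Integrable (fun ω => k ω ^ 2) P := by
    have := sym_int (P := P) (hk.mul hk) (sym_mul_bdd hkb hkb)
    refine this.congr (Filter.Eventually.of_forall fun ω => ?_)
    simp [pow_two]
  have i3 : Integrable (fun ω => g ω * k ω) P := sym_int (P := P) (hg.mul hk) (sym_mul_bdd hgb hkb)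
  have key : ∀ t : ℝ, 0 ≤ (∫ ω, k ω ^ 2 ∂P) * (t * t) + (2 * ∫ ω, g ω * k ω ∂P) * t +
      ∫ ω, g ω ^ 2 ∂P := by
    intro t
    have h0 : 0 ≤ ∫ ω, (g ω + t * k ω) ^ 2 ∂P := integral_nonneg fun ω => sq_nonneg _
    have h1 : ∫ ω, (g ω + t * k ω) ^ 2 ∂P =
        ∫ ω, (g ω ^ 2 + (2 * t) * (g ω * k ω) + t ^ 2 * k ω ^ 2) ∂P := by
      refine integral_congr_ae (Filter.Eventually.of_forall fun ω => ?_)
      simp only
      ring
    have j1 : Integrable (fun ω => (2 * t) * (g ω * k ω)) P := i3.const_mul _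
    have j2 : Integrable (fun ω => t ^ 2 * k ω ^ 2) P := i2.const_mul _
    have j3 : Integrable (fun ω => g ω ^ 2 + (2 * t) * (g ω * k ω)) P := i1.add j1
    rw [h1, integral_add j3 j2, integral_add i1 j1, integral_const_mul, integral_const_mul] at h0
    nlinarith [h0]
  have hd := discrim_le_zero key
  unfold discrim at hd
  nlinarith [hd]

theorem sym_act_act (hInvol : TaskInvol) {d : ℕ} {E : Type} (i : Fin d) (ω : Om d E) :
    act i (act i ω) = ω := by
  funext x
  unfold act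
  rw [(hInvol d i x).1]

theorem sym_symm (hInvol : TaskInvol) (hPres : TaskPres) {E : Type} [MeasurableSpace E]
    (ν : Measure E) [IsProbabilityMeasure ν] {g h : Om 17 E → ℝ} {C D : ℝ} (hg : Measurable g)
    (hh : Measurable h) (hgb : ∀ ω, |g ω| ≤ C) (hhb : ∀ ω, |h ω| ≤ D) :
    ∫ ω, MM g ω * h ω ∂PP 17 ν = ∫ ω, g ω * MM h ω ∂PP 17 ν := by
  have hact : ∀ i : Fin 17, Measurable (act (E := E) i) := fun i => (hPres 17 E ν i).measurable
  have e1 : ∫ ω, MM g ω * h ω ∂PP 17 ν = ∑ i : Fin 17, ∫ ω, g (act i ω) * h ω ∂PP 17 ν := by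
    rw [← integral_finsetSum]
    · refine integral_congr_ae (Filter.Eventually.of_forall fun ω => ?_)
      simp only [MM, Finset.sum_mul]
    · intro i _
      exact sym_int ((hg.comp (hact i)).mul hh) (sym_mul_bdd (fun ω => hgb _) hhb)
  have e2 : ∫ ω, g ω * MM h ω ∂PP 17 ν = ∑ i : Fin 17, ∫ ω, g ω * h (act i ω) ∂PP 17 ν := by
    rw [← integral_finsetSum]
    · refine integral_congr_ae (Filter.Eventually.of_forall fun ω => ?_)
      simp only [MM, Finset.mul_sum]
    · intro i _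
      exact sym_int (hg.mul (hh.comp (hact i))) (sym_mul_bdd hgb (fun ω => hhb _))
  rw [e1, e2]
  refine Finset.sum_congr rfl fun i _ => ?_
  have hF : Measurable (fun ω : Om 17 E => g ω * h (act i ω)) := hg.mul (hh.comp (hact i))
  have h1 : ∫ ω, g ω * h (act i ω) ∂PP 17 ν =
      ∫ ω, g ω * h (act i ω) ∂(Measure.map (act i) (PP 17 ν)) := by
    rw [(hPres 17 E ν i).map_eq]
  rw [h1, integral_map (hact i).aemeasurable hF.aestronglyMeasurable]
  refine integral_congr_ae (Filter.Eventually.of_forall fun ω => ?_)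
  simp only [sym_act_act hInvol]

theorem taskSym (hInvol : TaskInvol) (hPres : TaskPres) : TaskSym := by
  intro E _ ν _ f C hf hfb n
  have hact : ∀ i : Fin 17, Measurable (act (E := E) i) := fun i => (hPres 17 E ν i).measurable
  have hall : ∀ n : ℕ, Measurable (MM^[n] f) ∧ ∀ ω, |MM^[n] f ω| ≤ 17 ^ n * C := by
    intro n
    induction n with
    | zero => exact ⟨hf, by simpa using hfb⟩
    | succ n ih =>
      rw [Function.iterate_succ_apply']
      refine ⟨sym_meas hact ih.1, fun ω => ?_⟩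
      have := sym_bdd ih.2 ω
      rw [pow_succ]
      linarith
  have e1 : MM^[n + 1] f = MM (MM^[n] f) := Function.iterate_succ_apply' _ _ _
  have e2 : MM^[n + 2] f = MM (MM^[n + 1] f) := Function.iterate_succ_apply' _ _ _
  have h1 : ∫ ω, (MM^[n + 1] f ω) ^ 2 ∂PP 17 ν =
      ∫ ω, MM^[n] f ω * MM^[n + 2] f ω ∂PP 17 ν := by
    rw [e2, ← sym_symm hInvol hPres ν (hall n).1 (hall (n + 1)).1 (hall n).2 (hall (n + 1)).2, ← e1]
    refine integral_congr_ae (Filter.Eventually.of_forall fun ω => ?_)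
    simp only [pow_two]
  rw [h1]
  exact sym_cs (hall n).1 (hall (n + 2)).1 (hall n).2 (hall (n + 2)).2

end Pool.Agent.Q39.MD17
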