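import Pool.Agent.Q39.MD17.Stmts

set_option autoImplicit false

namespace Pool.Agent.Q39.MD17

open MeasureTheory ProbabilityTheory Filter Topology Finset
open scoped BigOperators

theorem taskWalk_sum (h : TaskWeight) (n : ℕ) :
    ∑ w : Fin n → Fin 17, (1 / 4 : ℝ) ^ len ((List.ofFn w).foldr L (o 17)) ≤ 8 ^ n := by
  induction n with
  | zero => simp [len, o]
  | succ n ih =>
    have e : ∑ w : Fin (n + 1) → Fin 17, (1 / 4 : ℝ) ^ len ((List.ofFn w).foldr L (o 17)) =
        ∑ w : Fin n → Fin 17, ∑ a : Fin 17,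
          (1 / 4 : ℝ) ^ len (L a ((List.ofFn w).foldr L (o 17))) := by
      rw [← (Fin.consEquiv (fun _ : Fin (n + 1) => Fin 17)).sum_comp, Fintype.sum_prod_type_right]
      refine Finset.sum_congr rfl fun w _ => Finset.sum_congr rfl fun a _ => ?_
      rw [List.ofFn_succ]
      simp [Fin.consEquiv]
    rw [e]
    calc ∑ w : Fin n → Fin 17, ∑ a : Fin 17,
          (1 / 4 : ℝ) ^ len (L a ((List.ofFn w).foldr L (o 17)))
        ≤ ∑ w : Fin n → Fin 17, 8 * (1 / 4 : ℝ) ^ len ((List.ofFn w).foldr L (o 17)) :=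
          Finset.sum_le_sum fun w _ => h _
      _ = 8 * ∑ w : Fin n → Fin 17, (1 / 4 : ℝ) ^ len ((List.ofFn w).foldr L (o 17)) := by
          rw [Finset.mul_sum]
      _ ≤ 8 * 8 ^ n := mul_le_mul_of_nonneg_left ih (by norm_num)
      _ = 8 ^ (n + 1) := by ring

theorem taskWalk (h : TaskWeight) : TaskWalk := by
  intro n r
  have h1 := taskWalk_sum h n
  set S := Finset.univ.filter (fun w : Fin n → Fin 17 =>
    len ((List.ofFn w).foldr L (o 17)) ≤ r) with hS
  have h2 : (S.card : ℝ) * (1 / 4 : ℝ) ^ r ≤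
      ∑ w : Fin n → Fin 17, (1 / 4 : ℝ) ^ len ((List.ofFn w).foldr L (o 17)) := by
    calc (S.card : ℝ) * (1 / 4 : ℝ) ^ r = ∑ _w ∈ S, (1 / 4 : ℝ) ^ r := by
          rw [Finset.sum_const, nsmul_eq_mul]
      _ ≤ ∑ w ∈ S, (1 / 4 : ℝ) ^ len ((List.ofFn w).foldr L (o 17)) := by
          refine Finset.sum_le_sum fun w hw => ?_
          exact pow_le_pow_of_le_one (by norm_num) (by norm_num) (Finset.mem_filter.mp hw).2
      _ ≤ _ := Finset.sum_le_sum_of_subset_of_nonneg (Finset.subset_univ _)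
          fun w _ _ => by positivity
  have h3 : (S.card : ℝ) * (1 / 4 : ℝ) ^ r ≤ 8 ^ n := h2.trans h1
  have h4 : (0 : ℝ) < 4 ^ r := by positivity
  have h5 : (S.card : ℝ) = 4 ^ r * ((S.card : ℝ) * (1 / 4 : ℝ) ^ r) := by
    rw [one_div, inv_pow]
    field_simp
  rw [h5]
  exact mul_le_mul_of_nonneg_left h3 h4.le

end Pool.Agent.Q39.MD17
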