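import Pool.Agent.Q39.MD17.Stmts

set_option autoImplicit false

namespace Pool.Agent.Q39.MD17

theorem taskWeight : TaskWeight := by
  intro x
  obtain ⟨w, hw⟩ := x
  cases w with
  | nil =>
    have h : ∀ i : Fin 17, len (L i (⟨[], hw⟩ : V 17)) = 1 := fun i => rfl
    have h0 : len (⟨[], hw⟩ : V 17) = 0 := rfl
    rw [Finset.sum_congr rfl fun i _ => by rw [h i], h0]
    simp
    norm_num
  | cons a w =>
    have h0 : len (⟨a :: w, hw⟩ : V 17) = w.length + 1 := rfl
    have ha : len (L a (⟨a :: w, hw⟩ : V 17)) = w.length := by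
      simp [len, L, preList]
    have hb : ∀ i ∈ Finset.univ.erase a, ((1 / 4 : ℝ) ^ len (L i (⟨a :: w, hw⟩ : V 17))) =
        (1 / 4 : ℝ) ^ (w.length + 2) := by
      intro i hi
      have hne : ¬ a = i := fun h => (Finset.ne_of_mem_erase hi) h.symm
      have : len (L i (⟨a :: w, hw⟩ : V 17)) = w.length + 2 := by
        simp [len, L, preList, hne]
      rw [this]
    rw [← Finset.add_sum_erase _ _ (Finset.mem_univ a), Finset.sum_congr rfl hb, ha, h0,
      Finset.sum_const, Finset.card_erase_of_mem (Finset.mem_univ a), Finset.card_univ, Fintype.card_fin,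
      nsmul_eq_mul, pow_succ, pow_succ]
    have h17 : ((17 - 1 : ℕ) : ℝ) = 16 := by norm_num
    rw [h17]
    linarith

end Pool.Agent.Q39.MD17
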