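import Pool.Agent.Q39.MD17.TaskInvol
import Pool.Agent.Q39.MD17.TaskLR
import Pool.Agent.Q39.MD17.TaskWeight
import Pool.Agent.Q39.MD17.TaskWalk
import Pool.Agent.Q39.MD17.TaskDist
import Pool.Agent.Q39.MD17.TaskPres
import Pool.Agent.Q39.MD17.TaskIndep
import Pool.Agent.Q39.MD17.TaskCylPow
import Pool.Agent.Q39.MD17.TaskSym
import Pool.Agent.Q39.MD17.TaskLogConv
import Pool.Agent.Q39.MD17.TaskSpecCyl
import Pool.Agent.Q39.MD17.Approx
import Pool.Agent.Q39.MD17.TaskSpec
import Pool.Agent.Q39.MD17.TaskGap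
import Pool.Agent.Q39.MD17.TaskRings
import Pool.Agent.Q39.MD17.TaskCluster
import Pool.Agent.Q39.MD17.TaskUnique
import Pool.Agent.Q39.MD17.TaskExist
import Pool.Agent.Q39.MD17.TaskConst
import Pool.Agent.Q39.MD17.TaskEdge
import Pool.Agent.Q39.MD17.TaskDrop
import Pool.Agent.Q39.MD17.TaskMeasAt
import Pool.Agent.Q39.MD17.TaskRingInt
import Pool.Agent.Q39.MD17.TaskIntG
import Pool.Agent.Q39.MD17.TaskSwap
import Pool.Agent.Q39.MD17.TaskMeanFlips
import Pool.Agent.Q39.MD17.TaskFix
import Pool.Agent.Q39.MD17.TaskGoodAE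
import Pool.Agent.Q39.MD17.TaskPlusMeas
import Pool.Agent.Q39.MD17.TaskNine
import Pool.Agent.Q39.MD17.TaskEnds

namespace Pool.Agent.Q39.MD17

theorem invol : TaskInvol := taskInvol
theorem lR : TaskLR := taskLR
theorem pres : TaskPres := taskPres
theorem gapT : TaskGap := taskGap
  (taskSpec pres (taskSpecCyl (taskCylPow invol (taskWalk taskWeight) (taskDist lR) pres taskIndep)
    (taskSym invol pres) taskLogConv) taskApprox) pres
theorem goodAE : TaskGoodAE := taskGoodAE taskRings taskCluster
theorem unique : TaskUnique := taskUnique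
theorem exist : TaskExist := taskExist
theorem intG : TaskIntG := taskIntG (taskMeasAt taskConst goodAE) taskRingInt taskConst goodAE
theorem swap : TaskSwap := taskSwap pres unique lR invol goodAE
theorem fix : TaskFix := taskFix (taskMeanFlips goodAE (taskEdge taskConst) taskDrop taskConst intG swap)
  swap taskConst pres goodAE intG
theorem plusMeas : TaskPlusMeas := taskPlusMeas taskConst goodAE
theorem nine : TaskNine := taskNine taskConst goodAE swap fix
theorem ends : TaskEnds := taskEnds unique goodAE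

end Pool.Agent.Q39.MD17
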