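import Pool.Agent.Q39.MD17.Stmts

namespace Pool.Agent.Q39.MD17

open MeasureTheory ProbabilityTheory Filter Topology

/-- `v p ω x t`: the spin of the vertex `x` just before time `t` is `+`, for the dynamics started
with density `p` of `+` spins; measurable in the labelling `ω`, and obeying the rules of the
majority dynamics for every good labelling (almost every labelling is good). -/
def Dynamics (v : ℝ → Om 17 Lab → V 17 → ℝ → Prop) : Prop :=
  (∀ p x t, MeasurableSet {ω | v p ω x t}) ∧ ∀ p ω, GoodW ω → IsSol p ω (v p ω)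

/-- `θ(p)`: the probability that the spin of the root is finally `+` -/
noncomputable def theta (v : ℝ → Om 17 Lab → V 17 → ℝ → Prop) (p : ℝ) : ℝ :=
  (PP 17 law).real (Plus (v p))

theorem gap (hGap : TaskGap) (hMeas : TaskPlusMeas) (hNine : TaskNine)
    {v : ℝ → Om 17 Lab → V 17 → ℝ → Prop} (hv : Dynamics v) (p : ℝ) :
    theta v p = 0 ∨ 1 / 9 ≤ theta v p :=
  hGap Lab law (Plus (v p)) (hMeas p (v p) (hv.1 p) (hv.2 p)) (hNine p (v p) (hv.1 p) (hv.2 p))

theorem not_cont (hGap : TaskGap) (hMeas : TaskPlusMeas) (hNine : TaskNine) (hEnds : TaskEnds)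
    {v : ℝ → Om 17 Lab → V 17 → ℝ → Prop} (hv : Dynamics v) :
    theta v 0 = 0 ∧ theta v 1 = 1 ∧ ¬ ContinuousOn (theta v) (Set.Icc 0 1) := by
  have h0 : theta v 0 = 0 := (hEnds (v 0)).1 (hv.2 0)
  have h1 : theta v 1 = 1 := (hEnds (v 1)).2 (hv.2 1)
  refine ⟨h0, h1, fun hc => ?_⟩
  have h := intermediate_value_Icc (zero_le_one' ℝ) hc
  rw [h0, h1] at h
  obtain ⟨p, _, hp⟩ := h (show (1 / 18 : ℝ) ∈ Set.Icc 0 1 by constructor <;> norm_num)
  rcases gap hGap hMeas hNine hv p with h2 | h2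
  · rw [hp] at h2; norm_num at h2
  · rw [hp] at h2; norm_num at h2

end Pool.Agent.Q39.MD17
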