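import Pool.Agent.Q39.MD17.Stmts

set_option autoImplicit false

namespace Pool.Agent.Q39.MD17

open MeasureTheory ProbabilityTheory Filter Topology Finset
open scoped BigOperators

open Classical in
theorem taskGap (hspec : TaskSpec) (hpres : TaskPres) : TaskGap := by
  intro E _ ν _ A hA hae
  obtain ⟨T, -, hT, hTA⟩ := hA.exists_measurable_superset_ae_eq
  have hreal : (PP 17 ν).real A = (PP 17 ν).real T := (measureReal_congr hTA).symm
  have hp : ∀ i : Fin 17, MeasurePreserving (act (E := E) i) (PP 17 ν) (PP 17 ν) := hpres 17 E ν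
  have hm : ∀ᵐ ω ∂PP 17 ν, (ω ∈ T ↔ ω ∈ A) := by
    filter_upwards [hTA] with ω hω
    exact Iff.of_eq hω
  have hmi : ∀ᵐ ω ∂PP 17 ν, ∀ i : Fin 17, (act i ω ∈ T ↔ act i ω ∈ A) := by
    rw [ae_all_iff]
    intro i
    exact (hp i).quasiMeasurePreserving.ae hm
  have hint : ∀ i : Fin 17, Integrable ((T ∩ act i ⁻¹' T).indicator (1 : Om 17 E → ℝ)) (PP 17 ν) := by
    intro i
    exact (integrable_const (1 : ℝ)).indicator (hT.inter ((hp i).measurable hT))
  have hle : 9 * (PP 17 ν).real T ≤ ∑ i : Fin 17, (PP 17 ν).real (T ∩ act i ⁻¹' T) := by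
    have h1 : ∑ i : Fin 17, (PP 17 ν).real (T ∩ act i ⁻¹' T) =
        ∫ ω, ∑ i : Fin 17, (T ∩ act i ⁻¹' T).indicator (1 : Om 17 E → ℝ) ω ∂PP 17 ν := by
      rw [integral_finsetSum _ (fun i _ => hint i)]
      refine Finset.sum_congr rfl fun i _ => ?_
      rw [integral_indicator_one (hT.inter ((hp i).measurable hT))]
    have h2 : 9 * (PP 17 ν).real T = ∫ ω, 9 * T.indicator (1 : Om 17 E → ℝ) ω ∂PP 17 ν := by
      rw [integral_const_mul, integral_indicator_one hT]
    rw [h1, h2]
    refine integral_mono_ae ?_ ?_ ?_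
    · exact ((integrable_const (1 : ℝ)).indicator hT).const_mul 9
    · exact integrable_finsetSum _ (fun i _ => hint i)
    · filter_upwards [hae, hm, hmi] with ω h9 h0 hi
      by_cases hω : ω ∈ T
      · have h9' := h9 (h0.1 hω)
        have hset : {i : Fin 17 | act i ω ∈ A}.ncard =
            (Finset.univ.filter (fun i : Fin 17 => act i ω ∈ T)).card := by
          rw [← Set.ncard_coe_finset]
          congr 1
          ext i
          simp [hi i]
        have hsum : ∑ i : Fin 17, (T ∩ act i ⁻¹' T).indicator (1 : Om 17 E → ℝ) ω =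
            ((Finset.univ.filter (fun i : Fin 17 => act i ω ∈ T)).card : ℝ) := by
          rw [Finset.card_filter]
          push_cast
          refine Finset.sum_congr rfl fun i _ => ?_
          by_cases hi' : act i ω ∈ T
          · have hmem : ω ∈ T ∩ act i ⁻¹' T := Set.mem_inter hω hi'
            rw [if_pos hi', Set.indicator_of_mem hmem]
            rfl
          · rw [if_neg hi', Set.indicator_of_notMem]
            exact fun h => hi' h.2
        have h99 : (9 : ℝ) ≤ ((Finset.univ.filter (fun i : Fin 17 => act i ω ∈ T)).card : ℝ) := by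
          rw [← hset]
          exact_mod_cast h9'
        show 9 * T.indicator (1 : Om 17 E → ℝ) ω ≤ ∑ i : Fin 17, (T ∩ act i ⁻¹' T).indicator (1 : Om 17 E → ℝ) ω
        rw [hsum, Set.indicator_of_mem hω]
        simpa using h99
      · show 9 * T.indicator (1 : Om 17 E → ℝ) ω ≤ ∑ i : Fin 17, (T ∩ act i ⁻¹' T).indicator (1 : Om 17 E → ℝ) ω
        rw [Set.indicator_of_notMem hω, mul_zero]
        exact Finset.sum_nonneg fun i _ => Set.indicator_nonneg (fun _ _ => zero_le_one) _
  have hs := hspec E ν T hT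
  rw [hreal]
  set θ := (PP 17 ν).real T with hθ
  have hθ0 : 0 ≤ θ := measureReal_nonneg
  rcases hθ0.eq_or_lt with h | h
  · left
    exact h.symm
  · right
    have h3 : 9 * θ ≤ 17 * θ ^ 2 + 8 * θ * (1 - θ) := hle.trans hs
    have h4 : θ * 1 ≤ θ * (9 * θ) := by nlinarith
    have h5 : 1 ≤ 9 * θ := le_of_mul_le_mul_left h4 h
    linarith

end Pool.Agent.Q39.MD17
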