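import Pool.Agent.Q39.MD17.Stmts

set_option autoImplicit false

namespace Pool.Agent.Q39.MD17

open MeasureTheory

theorem taskGoodAE (h1 : TaskRings) (h2 : TaskCluster) : TaskGoodAE := by
  filter_upwards [h1, h2] with ω hω1 hω2
  exact ⟨hω1.1, hω1.2.1, hω1.2.2, hω2⟩

end Pool.Agent.Q39.MD17
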